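import Pool.Agent.Y907.HM.Ub2

set_option autoImplicit false
open MeasureTheory Set Filter
open scoped ENNReal Topology

namespace Pool.Agent.Y907.HM

/-- the uniform probability measure on the cube -/
noncomputable def cub (A : Type) [Fintype A] : Measure (A → ℝ) :=
  Measure.pi fun _ : A => (volume : Measure ℝ).restrict (Icc 0 1)

instance prob_I : IsProbabilityMeasure ((volume : Measure ℝ).restrict (Icc 0 1)) :=
  ⟨by rw [Measure.restrict_apply_univ, Real.volume_Icc]; simp⟩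

instance (A : Type) [Fintype A] : IsProbabilityMeasure (cub A) := by
  unfold cub; infer_instance

theorem fub {A : Type} [Fintype A] [DecidableEq A] (a1 : A) {E : Set (A → ℝ)}
    (hE : MeasurableSet E) {b : ℝ≥0∞}
    (h : ∀ y : A → ℝ, ((volume : Measure ℝ).restrict (Icc 0 1)) {t | Function.update y a1 t ∈ E} ≤ b) :
    cub A E ≤ b := by
  have hf : Measurable (E.indicator (1 : (A → ℝ) → ℝ≥0∞)) := measurable_one.indicator hE
  have h1 : cub A E = ∫⁻ y, E.indicator (1 : (A → ℝ) → ℝ≥0∞) y ∂(cub A) := by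
    rw [lintegral_indicator_one hE]
  have h2 := lmarginal_erase' (μ := fun _ : A => (volume : Measure ℝ).restrict (Icc 0 1))
    (E.indicator (1 : (A → ℝ) → ℝ≥0∞)) hf (Finset.mem_univ a1)
  rw [lmarginal_univ] at h2
  have h3 := congrFun h2 0
  rw [h1]
  unfold cub
  rw [h3]
  refine (lmarginal_mono (g := fun _ => b) ?_ 0).trans ?_
  · intro x
    refine le_trans (le_of_eq ?_) (h x)
    rw [← lintegral_indicator_one]
    · rfl
    · exact (measurable_update x) hE
  · unfold lmarginal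
    rw [lintegral_const, measure_univ, mul_one]

variable {κ : Type} [Fintype κ] [DecidableEq κ]

/-- the vector of the remaining coordinates of the first column -/
def zy {A : Type} (j0 : κ) (e : ∀ j, j ≠ j0 → A) (y : A → ℝ) (j : κ) : ℝ :=
  if h : j = j0 then 0 else y (e j h)

theorem ae_slice {A : Type} [Fintype A] [DecidableEq A] (j0 : κ) (e : ∀ j, j ≠ j0 → A)
    (he : ∀ j j' h h', e j h = e j' h' → j = j') (M : ℕ) (hM : 2 ≤ M) {c : ℝ} (hc : 0 < c)
    (hc8 : 8 * 3 ^ (Fintype.card κ) * c ≤ 1) :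
    ∀ᵐ y ∂(cub A), ∃ k1 : ℕ, ∀ k, k1 ≤ k → ∀ q : κ → ℤ, q ≠ 0 → q j0 = 0 →
      (∀ j, |q j| ≤ ((M ^ k : ℕ) : ℤ)) → ∀ p : ℤ,
      c / ((M:ℝ) ^ k) ^ (Fintype.card κ) < |∑ j, (q j : ℝ) * zy j0 e y j - p| := by
  classical
  have hcard : 1 ≤ Fintype.card κ := Fintype.card_pos_iff.2 ⟨j0⟩
  have hc1 : c ≤ 1 / 8 := by
    have h3 : (1:ℝ) ≤ 3 ^ (Fintype.card κ) := one_le_pow₀ (by norm_num)
    nlinarith
  set m := Fintype.card κ with hm
  let Eq : (κ → ℤ) → ℝ → Set (A → ℝ) := fun q η =>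
    {y | ∃ p : ℤ, |∑ j, (q j : ℝ) * zy j0 e y j - p| ≤ η}
  have hEqm : ∀ q η, MeasurableSet (Eq q η) := by
    intro q η
    have h1 : Eq q η = ⋃ p : ℤ, {y | |∑ j, (q j : ℝ) * zy j0 e y j - p| ≤ η} := by
      ext y; simp [Eq]
    rw [h1]
    refine MeasurableSet.iUnion fun p => ?_
    refine measurableSet_le ?_ measurable_const
    refine Measurable.abs (Measurable.sub ?_ measurable_const)
    refine Finset.measurable_sum _ fun j _ => ?_
    refine measurable_const.mul ?_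
    unfold zy
    by_cases hj : j = j0
    · simp only [hj, dif_pos]; exact measurable_const
    · simp only [hj, dif_neg, not_false_eq_true]; exact measurable_pi_apply _
  have hEq : ∀ q : κ → ℤ, q ≠ 0 → q j0 = 0 → ∀ η : ℝ, 0 ≤ η → η ≤ 1 / 2 →
      cub A (Eq q η) ≤ ENNReal.ofReal (6 * η) := by
    intro q hq0 hqj0 η hη0 hη1
    obtain ⟨j1, hj1⟩ : ∃ j1, q j1 ≠ 0 := by
      by_contra hcon
      push Not at hcon
      exact hq0 (funext hcon)
    have hj10 : j1 ≠ j0 := fun h => hj1 (h ▸ hqj0)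
    refine fub (e j1 hj10) (hEqm q η) fun y => ?_
    have h1 : {t | Function.update y (e j1 hj10) t ∈ Eq q η} =
        {t | ∃ p : ℤ, |((q j1 : ℤ) : ℝ) * t + (∑ j ∈ Finset.univ.erase j1, (q j : ℝ) * zy j0 e y j) - p|
          ≤ η} := by
      ext t
      have h2 : ∑ j, (q j : ℝ) * zy j0 e (Function.update y (e j1 hj10) t) j =
          ((q j1 : ℤ) : ℝ) * t + (∑ j ∈ Finset.univ.erase j1, (q j : ℝ) * zy j0 e y j) := by
        rw [← Finset.add_sum_erase _ _ (Finset.mem_univ j1)]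
        congr 1
        · unfold zy
          rw [dif_neg hj10, Function.update_self]
        · refine Finset.sum_congr rfl fun j hj => ?_
          have hjne := Finset.ne_of_mem_erase hj
          congr 1
          unfold zy
          by_cases hj0 : j = j0
          · rw [dif_pos hj0, dif_pos hj0]
          · rw [dif_neg hj0, dif_neg hj0, Function.update_of_ne]
            intro h
            exact hjne (he _ _ _ _ h)
      simp only [Eq, Set.mem_ofPred_eq]
      rw [h2]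
    rw [h1, Measure.restrict_apply' measurableSet_Icc]
    have h2 := vol_lin hj1 (∑ j ∈ Finset.univ.erase j1, (q j : ℝ) * zy j0 e y j) hη0 hη1
      (zero_le_one' ℝ)
    refine le_trans (measure_mono ?_) (h2.trans ?_)
    · rintro t ⟨ht1, ht2⟩
      exact ⟨ht2, ht1⟩
    · apply ENNReal.ofReal_le_ofReal
      have h3 : (1:ℝ) ≤ |((q j1 : ℤ) : ℝ)| := by
        have : (1:ℤ) ≤ |q j1| := Int.one_le_abs hj1
        exact_mod_cast this
      have h4 : 4 * η / |((q j1 : ℤ) : ℝ)| ≤ 4 * η := div_le_self (by positivity) h3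
      linarith
  let B : ℕ → Set (A → ℝ) := fun k => ⋃ q ∈ (Fintype.piFinset fun _ : κ =>
    Finset.Icc (-((M ^ k : ℕ) : ℤ)) ((M ^ k : ℕ) : ℤ)).filter (fun q => q j0 = 0 ∧ q ≠ 0),
    Eq q (c / ((M:ℝ) ^ k) ^ m)
  have hM1 : (1:ℝ) < M := by exact_mod_cast (by omega : 1 < M)
  have hB : ∀ k, cub A (B k) ≤ ENNReal.ofReal ((1 / (M:ℝ)) ^ k) := by
    intro k
    set Q : ℕ := M ^ k with hQ
    have hQ1 : 1 ≤ Q := Nat.one_le_pow _ _ (by omega)
    have hQR : ((M:ℝ) ^ k) = (Q:ℝ) := by rw [hQ]; push_cast; rfl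
    have hQ1R : (1:ℝ) ≤ Q := by exact_mod_cast hQ1
    have hQ0 : (0:ℝ) < Q := by linarith
    have hQm : (1:ℝ) ≤ (Q:ℝ) ^ m := one_le_pow₀ hQ1R
    have he1 : c / (Q:ℝ) ^ m ≤ 1 / 8 := (div_le_self hc.le hQm).trans hc1
    simp only [B, hQR]
    refine (measure_biUnion_finset_le _ _).trans ?_
    have h1 : ∀ q ∈ (Fintype.piFinset fun _ : κ => Finset.Icc (-((Q : ℕ) : ℤ)) ((Q : ℕ) : ℤ)).filter
        (fun q => q j0 = 0 ∧ q ≠ 0), cub A (Eq q (c / (Q:ℝ) ^ m)) ≤
        ENNReal.ofReal (6 * (c / (Q:ℝ) ^ m)) := by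
      intro q hq
      rw [Finset.mem_filter] at hq
      exact hEq q hq.2.2 hq.2.1 _ (by positivity) (by linarith)
    refine (Finset.sum_le_sum h1).trans ?_
    rw [Finset.sum_const, nsmul_eq_mul, ← ENNReal.ofReal_natCast, ← ENNReal.ofReal_mul (by positivity)]
    apply ENNReal.ofReal_le_ofReal
    have h2 : (((Fintype.piFinset fun _ : κ => Finset.Icc (-((Q : ℕ) : ℤ)) ((Q : ℕ) : ℤ)).filter
        (fun q => q j0 = 0 ∧ q ≠ 0)).card : ℝ) ≤ (2 * Q + 1) ^ (m - 1) := by
      have h3 : ((Fintype.piFinset fun _ : κ => Finset.Icc (-((Q : ℕ) : ℤ)) ((Q : ℕ) : ℤ)).filter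
        (fun q => q j0 = 0 ∧ q ≠ 0)).card ≤ ((Fintype.piFinset fun _ : κ =>
          Finset.Icc (-((Q : ℕ) : ℤ)) ((Q : ℕ) : ℤ)).filter (fun q => q j0 = 0)).card := by
        apply Finset.card_le_card
        intro q hq
        rw [Finset.mem_filter] at hq ⊢
        exact ⟨hq.1, hq.2.1⟩
      rw [Fintype.card_filter_piFinset_const_eq_of_mem _ _ (by simp), Int.card_Icc] at h3
      have h5 : ((Q:ℤ) + 1 - -(Q:ℤ)).toNat = 2 * Q + 1 := by omega
      rw [h5, ← hm] at h3
      exact_mod_cast h3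
    have hQ3 : (2 * (Q:ℝ) + 1) ≤ 3 * Q := by linarith
    calc (((Fintype.piFinset fun _ : κ => Finset.Icc (-((Q : ℕ) : ℤ)) ((Q : ℕ) : ℤ)).filter
        (fun q => q j0 = 0 ∧ q ≠ 0)).card : ℝ) * (6 * (c / (Q:ℝ) ^ m))
        ≤ (3 * Q) ^ (m - 1) * (6 * (c / (Q:ℝ) ^ m)) := by
          gcongr
          refine h2.trans ?_
          gcongr
      _ = ((3 * (Q:ℝ)) ^ (m - 1) * (3 * Q)) * (2 * (c / (Q:ℝ) ^ m)) * (1 / Q) := by
          field_simp
          ring
      _ = (3 ^ m * c) * 2 * (1 / Q) := by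
          rw [← pow_succ, Nat.sub_add_cancel hcard, mul_pow]
          field_simp
      _ ≤ (1 / 8) * 2 * (1 / Q) := by
          gcongr
          linarith
      _ ≤ 1 / (Q:ℝ) := by
          have : 0 ≤ 1 / (Q:ℝ) := by positivity
          linarith
      _ = (1 / (M:ℝ)) ^ k := by
          rw [← hQR, div_pow, one_pow]
  have hsum : ∑' k, cub A (B k) ≠ ⊤ := by
    refine ne_top_of_le_ne_top ?_ (ENNReal.tsum_le_tsum hB)
    have hg : Summable fun k : ℕ => (1 / (M:ℝ)) ^ k := by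
      refine summable_geometric_of_lt_one (by positivity) ?_
      rw [div_lt_one (by linarith)]
      exact hM1
    exact hg.tsum_ofReal_ne_top
  filter_upwards [ae_eventually_notMem hsum] with y hy
  obtain ⟨k1, hk1⟩ := eventually_atTop.1 hy
  refine ⟨k1, fun k hk q hq0 hqj0 hqQ p => ?_⟩
  by_contra hcon
  push Not at hcon
  apply hk1 k hk
  simp only [B, mem_iUnion, exists_prop]
  refine ⟨q, ?_, p, hcon⟩
  rw [Finset.mem_filter, Fintype.mem_piFinset]
  exact ⟨fun j => Finset.mem_Icc.2 (abs_le.1 (hqQ j)), hqj0, hq0⟩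

end Pool.Agent.Y907.HM
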