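import Pool.Agent.Y907.HM.Win2

set_option autoImplicit false
open MeasureTheory Set Filter
open scoped ENNReal Topology

namespace Pool.Agent.Y907.HM

theorem exists_rho {g : ℝ → ℝ} {σ Cg : ℝ} (hg : Gauge g σ Cg) (c F : ℝ) (hc : 0 < c) :
    ∃ ρ : ℝ, 0 < ρ ∧ ρ ≤ 1 ∧ ρ ^ (1 - σ) * (Cg / g 1) * F ≤ c := by
  have h2 : (0:ℝ) < 1 - σ := by have := hg.s1; linarith
  have h1 : Tendsto (fun x : ℝ => x ^ (1 - σ) * (Cg / g 1) * F) (𝓝[>] 0) (𝓝 0) := by
    have h3 : Tendsto (fun x : ℝ => x ^ (1 - σ)) (𝓝[>] 0) (𝓝 0) := by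
      have h4 : Tendsto (fun x : ℝ => x) (𝓝[>] 0) (𝓝 0) := tendsto_id.mono_left nhdsWithin_le_nhds
      have h3 := h4.rpow_const (Or.inr h2.le) (p := 1 - σ)
      rwa [Real.zero_rpow h2.ne'] at h3
    have h4 := (h3.mul_const (Cg / g 1)).mul_const F
    simpa using h4
  have h5 := h1.eventually_le_const hc
  have h6 : ∀ᶠ x : ℝ in 𝓝[>] 0, x ≤ 1 :=
    (tendsto_id.mono_left nhdsWithin_le_nhds : Tendsto (fun x : ℝ => x) (𝓝[>] 0) (𝓝 0)).eventually_le_const one_pos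
  have h7 : ∀ᶠ x : ℝ in 𝓝[>] 0, 0 < x := eventually_mem_nhdsWithin
  obtain ⟨x, hx1, hx2, hx3⟩ := (h5.and (h6.and h7)).exists
  exact ⟨x, hx3, hx2, hx1⟩

open Classical in
/-- the Cantor type construction -/
theorem cantor {g : ℝ → ℝ} {σ Cg : ℝ} (hg : Gauge g σ Cg) {R : ℕ → Set ℝ} {N : ℕ → ℝ}
    {C1 C2 Λ : ℝ} (hC1 : 1 ≤ C1) (hC2 : 1 ≤ C2) (hU : Ubi R N C1 C2) (hN0 : ∀ k, 0 < N k)
    (hΛ : ∀ k, Λ * N k ≤ N (k + 1)) (hΛ' : 400 * C1 * C2 ≤ Λ) {r : ℕ → ℝ}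
    (hr0 : ∀ k, 0 < r k) (hr1 : ∀ k, r k ≤ C1 / N k)
    (hdiv : ¬ Summable (fun k => N k * g (r k)))
    {ι : Type} [Countable ι] (I : ι → Set ℝ) (δ : ι → ℝ) (hδ0 : ∀ i, 0 < δ i)
    (hI : ∀ i, ∀ s ∈ I i, ∀ t ∈ I i, |s - t| ≤ δ i) {F ρ : ℝ} (hρ0 : 0 < ρ)
    (hρ1 : ρ ≤ 1) (hρ : ρ ^ (1 - σ) * (Cg / g 1) * F ≤ 1 / (16 * (2 + 4 * C1)))
    (hδρ : ∀ i, δ i ≤ ρ)
    (hG : ∑' i, ENNReal.ofReal (g (δ i)) ≤ ENNReal.ofReal F) :
    ∃ t ∈ Icc (0:ℝ) 1, (∀ i, t ∉ I i) ∧ ∀ K, ∃ k, K ≤ k ∧ ∃ x ∈ R k, |t - x| ≤ r k / 2 := by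
  have hGt : ∑' i, ENNReal.ofReal (g (δ i)) ≠ ⊤ := (hG.trans_lt ENNReal.ofReal_lt_top).ne
  have hC10 : 0 < C1 := by linarith
  have hC20 : 0 < C2 := by linarith
  have hΛ2 : 2 ≤ Λ := by nlinarith
  have hCg := hg.Cg_pos
  have hg1 := hg.pos 1 one_pos
  have hNt := N_tendsto hN0 hΛ hΛ2
  have hNinv : Tendsto (fun k => C1 / N k) atTop (𝓝 0) := hNt.const_div_atTop C1
  have hrt : Tendsto r atTop (𝓝 0) :=
    squeeze_zero (fun k => (hr0 k).le) hr1 hNinv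
  set ε : ℝ := min (1 / 2) (1 / (16 * (2 + 4 * C1) * Cg)) with hε
  have hε0 : 0 < ε := by positivity
  have hε1 : ε < 1 := (min_le_left _ _).trans_lt (by norm_num)
  have hε2 : Cg * ε ≤ 1 / (16 * (2 + 4 * C1)) := by
    calc Cg * ε ≤ Cg * (1 / (16 * (2 + 4 * C1) * Cg)) := by
          gcongr
          exact min_le_right _ _
      _ = 1 / (16 * (2 + 4 * C1)) := by field_simp
  -- the set of good balls
  let P : ℕ × ℝ → Prop := fun s => s.2 ∈ R s.1 ∧ Icc (s.2 - r s.1 / 2) (s.2 + r s.1 / 2) ⊆ Icc 0 1 ∧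
    ∑' i, (if (I i ∩ Icc (s.2 - r s.1 / 2) (s.2 + r s.1 / 2)).Nonempty then
        ENNReal.ofReal (g (δ i)) else 0) ≤ ENNReal.ofReal (ε * g (r s.1))
  have hlt : ∀ s, P s → ∀ i, (I i ∩ Icc (s.2 - r s.1 / 2) (s.2 + r s.1 / 2)).Nonempty →
      δ i < r s.1 := by
    rintro s ⟨-, -, hs⟩ i hi
    have h1 : ENNReal.ofReal (g (δ i)) ≤ ENNReal.ofReal (ε * g (r s.1)) := by
      refine le_trans ?_ hs
      have h2 := ENNReal.le_tsum (f := fun i =>
        (if (I i ∩ Icc (s.2 - r s.1 / 2) (s.2 + r s.1 / 2)).Nonempty then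
        ENNReal.ofReal (g (δ i)) else 0)) i
      rwa [if_pos hi] at h2
    have hgr := hg.pos _ (hr0 s.1)
    have h3 := (ENNReal.ofReal_le_ofReal_iff (by positivity)).1 h1
    by_contra hcon
    push Not at hcon
    have h4 := hg.mono _ _ (hr0 s.1) hcon
    nlinarith
  have hstep : ∀ s, P s → ∀ K, ∃ s', P s' ∧ K ≤ s'.1 ∧
      Icc (s'.2 - r s'.1 / 2) (s'.2 + r s'.1 / 2) ⊆ Icc (s.2 - r s.1 / 2) (s.2 + r s.1 / 2) := by
    intro s hPs K
    have hrs := hr0 s.1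
    have hle : s.2 - r s.1 / 2 ≤ s.2 + r s.1 / 2 := by linarith
    have h0 : 0 ≤ s.2 - r s.1 / 2 := (hPs.2.1 (left_mem_Icc.2 hle)).1
    have h1 : s.2 + r s.1 / 2 ≤ 1 := (hPs.2.1 (right_mem_Icc.2 hle)).2
    have hgr := hg.pos _ (hr0 s.1)
    have hsm : ∑' i, (if (I i ∩ Icc (s.2 - r s.1 / 2) (s.2 + r s.1 / 2)).Nonempty then
        ENNReal.ofReal (δ i) else 0) ≤
        ENNReal.ofReal (((s.2 + r s.1 / 2) - (s.2 - r s.1 / 2)) / (16 * (2 + 4 * C1))) := by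
      calc ∑' i, (if (I i ∩ Icc (s.2 - r s.1 / 2) (s.2 + r s.1 / 2)).Nonempty then
            ENNReal.ofReal (δ i) else 0)
          ≤ ∑' i, ENNReal.ofReal (Cg * r s.1 / g (r s.1)) *
            (if (I i ∩ Icc (s.2 - r s.1 / 2) (s.2 + r s.1 / 2)).Nonempty then
            ENNReal.ofReal (g (δ i)) else 0) := by
            refine ENNReal.tsum_le_tsum fun i => ?_
            by_cases hi : (I i ∩ Icc (s.2 - r s.1 / 2) (s.2 + r s.1 / 2)).Nonempty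
            · rw [if_pos hi, if_pos hi, ← ENNReal.ofReal_mul (by positivity)]
              apply ENNReal.ofReal_le_ofReal
              have h2 := hg.small (hδ0 i) (hlt s hPs i hi).le
              rw [div_mul_eq_mul_div, le_div_iff₀ hgr]
              exact h2
            · rw [if_neg hi]; exact zero_le
        _ = ENNReal.ofReal (Cg * r s.1 / g (r s.1)) *
            ∑' i, (if (I i ∩ Icc (s.2 - r s.1 / 2) (s.2 + r s.1 / 2)).Nonempty then
            ENNReal.ofReal (g (δ i)) else 0) := ENNReal.tsum_mul_left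
        _ ≤ ENNReal.ofReal (Cg * r s.1 / g (r s.1)) * ENNReal.ofReal (ε * g (r s.1)) := by
            gcongr
            exact hPs.2.2
        _ = ENNReal.ofReal (Cg * ε * r s.1) := by
            rw [← ENNReal.ofReal_mul (by positivity)]
            congr 1
            field_simp
        _ ≤ _ := by
            apply ENNReal.ofReal_le_ofReal
            calc Cg * ε * r s.1 ≤ 1 / (16 * (2 + 4 * C1)) * r s.1 := by gcongr
              _ = _ := by ring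
    obtain ⟨k, hk, x, hx, hsub, hsum⟩ := window hg hC1 hC2 hU hN0 hΛ hΛ' hr0 hr1 hdiv I δ hδ0 hI
      hGt hε0 h0 (by linarith) h1 hsm K
    exact ⟨(k, x), ⟨hx, hsub.trans hPs.2.1, hsum⟩, hk, hsub⟩
  have hinit : ∃ s, P s := by
    have hsm : ∑' i, (if (I i ∩ Icc 0 1).Nonempty then
        ENNReal.ofReal (δ i) else 0) ≤ ENNReal.ofReal (((1:ℝ) - 0) / (16 * (2 + 4 * C1))) := by
      calc ∑' i, (if (I i ∩ Icc 0 1).Nonempty then ENNReal.ofReal (δ i) else 0)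
          ≤ ∑' i, ENNReal.ofReal (ρ ^ (1 - σ) * (Cg / g 1)) * ENNReal.ofReal (g (δ i)) := by
            refine ENNReal.tsum_le_tsum fun i => ?_
            have h3 : δ i ≤ ρ ^ (1 - σ) * (Cg / g 1) * g (δ i) := by
              have h4 := hg.one (hδ0 i) ((hδρ i).trans hρ1)
              have h5 : (δ i) ^ (1 - σ) ≤ ρ ^ (1 - σ) :=
                Real.rpow_le_rpow (hδ0 i).le (hδρ i) (by have := hg.s1; linarith)
              have h6 := hg.pos _ (hδ0 i)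
              calc δ i ≤ (δ i) ^ (1 - σ) * (Cg / g 1) * g (δ i) := h4
                _ ≤ ρ ^ (1 - σ) * (Cg / g 1) * g (δ i) := by gcongr
            by_cases hi : (I i ∩ Icc 0 1).Nonempty
            · rw [if_pos hi, ← ENNReal.ofReal_mul (by positivity)]
              exact ENNReal.ofReal_le_ofReal h3
            · rw [if_neg hi]; exact zero_le
        _ = ENNReal.ofReal (ρ ^ (1 - σ) * (Cg / g 1)) * ∑' i, ENNReal.ofReal (g (δ i)) :=
            ENNReal.tsum_mul_left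
        _ ≤ ENNReal.ofReal (ρ ^ (1 - σ) * (Cg / g 1)) * ENNReal.ofReal F := by gcongr
        _ = ENNReal.ofReal (ρ ^ (1 - σ) * (Cg / g 1) * F) := by
            rw [← ENNReal.ofReal_mul (by positivity)]
        _ ≤ _ := by
            apply ENNReal.ofReal_le_ofReal
            rw [sub_zero]
            exact hρ
    obtain ⟨k, hk, x, hx, hsub, hsum⟩ := window hg hC1 hC2 hU hN0 hΛ hΛ' hr0 hr1 hdiv I δ hδ0 hI
      hGt hε0 le_rfl one_pos le_rfl hsm 0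
    exact ⟨(k, x), hx, hsub, hsum⟩
  obtain ⟨s0, hs0⟩ := hinit
  choose! nx hnx1 hnx2 hnx3 using hstep
  let sq : ℕ → ℕ × ℝ := fun n => Nat.rec s0 (fun n s => nx s n) n
  have hsq : ∀ n, P (sq n) := by
    intro n
    induction n with
    | zero => exact hs0
    | succ n ih => exact hnx1 (sq n) ih n
  have hsqK : ∀ n, n ≤ (sq (n + 1)).1 := fun n => hnx2 (sq n) (hsq n) n
  have hsqs : ∀ n, Icc ((sq (n+1)).2 - r (sq (n+1)).1 / 2) ((sq (n+1)).2 + r (sq (n+1)).1 / 2) ⊆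
      Icc ((sq n).2 - r (sq n).1 / 2) ((sq n).2 + r (sq n).1 / 2) :=
    fun n => hnx3 (sq n) (hsq n) n
  obtain ⟨t, ht⟩ := IsCompact.nonempty_iInter_of_sequence_nonempty_isCompact_isClosed
    (fun n => Icc ((sq n).2 - r (sq n).1 / 2) ((sq n).2 + r (sq n).1 / 2)) hsqs
    (fun n => by
      have := hr0 (sq n).1
      exact nonempty_Icc.2 (by linarith)) isCompact_Icc (fun n => isClosed_Icc)
  rw [mem_iInter] at ht
  refine ⟨t, (hsq 0).2.1 (ht 0), fun i hti => ?_, fun K => ?_⟩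
  · have h1 : ∀ n, δ i < r (sq n).1 := fun n => hlt _ (hsq n) i ⟨t, hti, ht n⟩
    obtain ⟨k1, hk1⟩ := eventually_atTop.1 (hrt.eventually_lt_const (hδ0 i))
    have h2 := hk1 (sq (k1 + 1)).1 (hsqK k1)
    exact absurd (h1 (k1 + 1)) (not_lt.2 h2.le)
  · refine ⟨(sq (K+1)).1, hsqK K, (sq (K+1)).2, (hsq (K+1)).1, ?_⟩
    have h1 := ht (K+1)
    rw [abs_le]
    constructor <;> linarith [h1.1, h1.2]

end Pool.Agent.Y907.HM
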