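import Pool.Agent.Y907.HM.Win2

set_option autoImplicit false
open MeasureTheory Set Filter
open scoped ENNReal Topology

namespace Pool.Agent.Y907.HM

variable {κ : Type} [Fintype κ]

/-- sup norm of an integer vector -/
def supN (q : κ → ℤ) : ℕ := Finset.univ.sup fun j => (q j).natAbs

theorem le_supN (q : κ → ℤ) (j : κ) : (q j).natAbs ≤ supN q :=
  Finset.le_sup (f := fun j => (q j).natAbs) (Finset.mem_univ j)

theorem supN_le (q : κ → ℤ) (B : ℕ) (h : ∀ j, |q j| ≤ (B:ℤ)) : supN q ≤ B :=
  Finset.sup_le fun j _ => by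
    have := h j
    rw [Int.abs_eq_natAbs] at this
    omega

theorem supN_pos {q : κ → ℤ} (h : q ≠ 0) : 0 < supN q := by
  obtain ⟨j, hj⟩ : ∃ j, q j ≠ 0 := by
    by_contra hcon
    push Not at hcon
    exact h (funext hcon)
  exact lt_of_lt_of_le (Int.natAbs_pos.2 hj) (le_supN q j)

open Classical in
theorem cond {g : ℝ → ℝ} {σ Cg : ℝ} (hg : Gauge g σ Cg) (ψ : ℕ → ℝ) (hψ0 : ∀ r, 0 ≤ ψ r)
    (hψ : ∀ r s, 1 ≤ r → r ≤ s → ψ s ≤ ψ r) (M : ℕ) (hM : 2 ≤ M)
    (hsum : ∑' q : κ → ℤ, (if q = 0 ∨ ψ (supN q) = 0 then 0 else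
      ENNReal.ofReal ((supN q : ℝ) * g (ψ (supN q) / supN q))) = ⊤) :
    (∀ r, 1 ≤ r → 0 < ψ r) ∧
    ¬ Summable (fun k : ℕ => ((M:ℝ) ^ k) ^ (Fintype.card κ + 1) *
      g (min (ψ (M ^ (k+1)) / (M:ℝ) ^ (k+1)) (1 / ((M:ℝ) ^ k) ^ (Fintype.card κ + 1)))) := by
  set T : (κ → ℤ) → ℝ≥0∞ := fun q => (if q = 0 ∨ ψ (supN q) = 0 then 0 else
      ENNReal.ofReal ((supN q : ℝ) * g (ψ (supN q) / supN q))) with hT
  have hTtop : ∀ q, T q ≠ ⊤ := by
    intro q
    simp only [hT]
    split_ifs
    · exact ENNReal.zero_ne_top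
    · exact ENNReal.ofReal_ne_top
  have hpos : ∀ r, 1 ≤ r → 0 < ψ r := by
    intro r hr
    by_contra hcon
    have h0 : ψ r = 0 := le_antisymm (not_lt.1 hcon) (hψ0 r)
    apply (ne_of_lt _) hsum
    have h1 : ∑' q, T q = ∑ q ∈ (Fintype.piFinset fun _ : κ => Finset.Icc (-(r:ℤ)) r), T q := by
      refine tsum_eq_sum fun q hq => ?_
      have h2 : r < supN q := by
        by_contra h3
        push Not at h3
        apply hq
        rw [Fintype.mem_piFinset]
        intro j
        have := (le_supN q j).trans h3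
        rw [Finset.mem_Icc]
        omega
      simp only [hT]
      rw [if_pos]
      right
      exact le_antisymm ((hψ r _ hr h2.le).trans h0.le) (hψ0 _)
    rw [h1]
    exact ENNReal.sum_lt_top.2 fun q _ => (hTtop q).lt_top
  refine ⟨hpos, fun hS => ?_⟩
  have hM1 : (1:ℝ) < M := by exact_mod_cast (by omega : 1 < M)
  have hM0 : (0:ℝ) < M := by linarith
  set m := Fintype.card κ with hm
  set N : ℕ → ℝ := fun k => ((M:ℝ) ^ k) ^ (m + 1) with hN
  set s : ℕ → ℝ := fun k => ψ (M ^ k) / (M:ℝ) ^ k with hs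
  have hN0 : ∀ k, 0 < N k := fun k => by simp only [hN]; positivity
  have hs0 : ∀ k, 0 < s k := fun k => by
    have := hpos (M ^ k) (Nat.one_le_pow _ _ (by omega))
    simp only [hs]
    positivity
  have hg1 := hg.pos 1 one_pos
  have hCg := hg.Cg_pos
  -- eventually the minimum is the first term
  have hNt : Tendsto N atTop atTop := by
    have h1 : Tendsto (fun k : ℕ => (M:ℝ) ^ k) atTop atTop := tendsto_pow_atTop_atTop_of_one_lt hM1
    exact (tendsto_pow_atTop (by omega : m + 1 ≠ 0)).comp h1
  have hbig : Tendsto (fun k => N k * g (1 / N k)) atTop atTop := by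
    have h1 : ∀ᶠ k in atTop, (g 1 / Cg) * (N k) ^ (1 - σ) ≤ N k * g (1 / N k) := by
      filter_upwards [hNt.eventually_ge_atTop 1] with k hk
      have h2 : 1 / N k ≤ 1 := by
        rw [div_le_one (hN0 k)]; exact hk
      have h3 := hg.one (x := 1 / N k) (by have := hN0 k; positivity) h2
      have hNk := hN0 k
      have h4 : (1 / N k) ^ (1 - σ) = 1 / (N k) ^ (1 - σ) := by
        rw [Real.div_rpow zero_le_one hNk.le, Real.one_rpow]
      rw [h4] at h3
      have h5 : 0 < (N k) ^ (1 - σ) := Real.rpow_pos_of_pos hNk _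
      have h6 : 0 < g (1 / N k) := hg.pos _ (by positivity)
      have h7 : 1 * (N k) ^ (1 - σ) * g 1 ≤ N k * Cg * g (1 / N k) := by
        have h8 : (1 / N k) * (N k * (N k) ^ (1 - σ) * g 1) ≤
            (1 / (N k) ^ (1 - σ) * (Cg / g 1) * g (1 / N k)) * (N k * (N k) ^ (1 - σ) * g 1) := by
          gcongr
        calc 1 * (N k) ^ (1 - σ) * g 1 = (1 / N k) * (N k * (N k) ^ (1 - σ) * g 1) := by
              field_simp
          _ ≤ _ := h8
          _ = N k * Cg * g (1 / N k) := by
              field_simp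
      rw [div_mul_eq_mul_div, div_le_iff₀ hCg]
      linarith
    refine tendsto_atTop_mono' _ h1 ?_
    have h2 : (0:ℝ) < 1 - σ := by have := hg.s1; linarith
    exact ((tendsto_rpow_atTop h2).comp hNt).const_mul_atTop (by positivity)
  have hev : ∀ᶠ k in atTop, s (k+1) ≤ 1 / N k := by
    have h1 := hS.tendsto_atTop_zero.eventually_lt_const one_pos
    filter_upwards [h1, hbig.eventually_ge_atTop 1] with k hk1 hk2
    by_contra hcon
    push Not at hcon
    rw [min_eq_right hcon.le] at hk1
    linarith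
  have hS2 : Summable fun k => N (k + 1) * g (s (k + 1)) := by
    have h1 : Summable fun k => (M:ℝ) ^ (m+1) * (N k * g (min (s (k+1)) (1 / N k))) :=
      hS.mul_left _
    refine Summable.of_norm_bounded_eventually_nat (h1) ?_
    filter_upwards [hev] with k hk
    rw [min_eq_left hk, Real.norm_of_nonneg (mul_nonneg (hN0 _).le (hg.pos _ (hs0 _)).le)]
    apply le_of_eq
    simp only [hN]
    ring
  have hS3 : Summable fun k => N k * g (s k) := (summable_nat_add_iff 1).1 hS2
  -- bound of the total sum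
  apply (ne_of_lt _) hsum
  have hTk : ∀ k : ℕ, ∑' q, (if Nat.log M (supN q) = k then T q else 0) ≤
      ENNReal.ofReal (((3 * M) ^ m * M) * (N k * g (s k))) := by
    intro k
    set Q : ℕ := M ^ (k + 1) with hQ
    have hQ1 : 1 ≤ Q := Nat.one_le_pow _ _ (by omega)
    have hQR : ((M:ℝ) ^ (k+1)) = (Q:ℝ) := by rw [hQ]; push_cast; rfl
    have hQ1R : (1:ℝ) ≤ Q := by exact_mod_cast hQ1
    have h1 : ∑' q, (if Nat.log M (supN q) = k then T q else 0) =
        ∑ q ∈ (Fintype.piFinset fun _ : κ => Finset.Icc (-(Q:ℤ)) Q),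
          (if Nat.log M (supN q) = k then T q else 0) := by
      refine tsum_eq_sum fun q hq => ?_
      rw [if_neg]
      intro hk
      apply hq
      have h3 : supN q < M ^ (k + 1) := by
        rw [← hk]
        exact Nat.lt_pow_succ_log_self (by omega) _
      rw [Fintype.mem_piFinset]
      intro j
      have := (le_supN q j).trans h3.le
      rw [Finset.mem_Icc]
      omega
    rw [h1]
    have h2 : ∀ q ∈ (Fintype.piFinset fun _ : κ => Finset.Icc (-(Q:ℤ)) Q),
        (if Nat.log M (supN q) = k then T q else 0) ≤ ENNReal.ofReal (Q * g (s k)) := by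
      intro q _
      split_ifs with hk
      · simp only [hT]
        split_ifs with h0
        · exact zero_le
        · push Not at h0
          have hsp := supN_pos h0.1
          have hspR : (0:ℝ) < supN q := by exact_mod_cast hsp
          have h3 : supN q < M ^ (k + 1) := by
            rw [← hk]
            exact Nat.lt_pow_succ_log_self (by omega) _
          have h4 : M ^ k ≤ supN q := by
            rw [← hk]
            exact Nat.pow_log_le_self M hsp.ne'
          have h4R : (M:ℝ) ^ k ≤ supN q := by exact_mod_cast h4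
          have h5 : ψ (supN q) / supN q ≤ s k := by
            simp only [hs]
            have h6 := hψ (M ^ k) (supN q) (Nat.one_le_pow _ _ (by omega)) h4
            have h7 := hψ0 (M ^ k)
            gcongr
          have h6 : 0 < ψ (supN q) / supN q := div_pos (hpos _ hsp) hspR
          apply ENNReal.ofReal_le_ofReal
          have h7 := hg.mono _ _ h6 h5
          have h8 := hg.pos _ h6
          have h9 : (supN q : ℝ) ≤ Q := by exact_mod_cast h3.le
          gcongr
      · exact zero_le
    refine (Finset.sum_le_sum h2).trans ?_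
    rw [Finset.sum_const, nsmul_eq_mul, ← ENNReal.ofReal_natCast,
      ← ENNReal.ofReal_mul (by positivity)]
    apply ENNReal.ofReal_le_ofReal
    rw [Fintype.card_piFinset]
    simp only [Int.card_Icc, Finset.prod_const, Finset.card_univ]
    have h5 : ((Q:ℤ) + 1 - -(Q:ℤ)).toNat = 2 * Q + 1 := by omega
    rw [h5, ← hm]
    push_cast
    have hgk := hg.pos _ (hs0 k)
    calc (2 * (Q:ℝ) + 1) ^ m * (Q * g (s k)) ≤ (3 * (Q:ℝ)) ^ m * (Q * g (s k)) := by
          gcongr
          linarith
      _ = ((3 * M) ^ m * M) * (N k * g (s k)) := by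
          rw [← hQR]
          simp only [hN]
          ring
  have hsplit : ∑' q, T q ≤ ∑' k : ℕ, ∑' q, (if Nat.log M (supN q) = k then T q else 0) := by
    rw [ENNReal.tsum_comm]
    refine ENNReal.tsum_le_tsum fun q => ?_
    have := ENNReal.le_tsum (f := fun k => if Nat.log M (supN q) = k then T q else 0)
      (Nat.log M (supN q))
    simpa only [if_true] using this
  refine lt_of_le_of_lt (hsplit.trans (ENNReal.tsum_le_tsum hTk)) ?_
  exact (hS3.mul_left ((3 * (M:ℝ)) ^ m * M)).tsum_ofReal_lt_top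

end Pool.Agent.Y907.HM
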