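import Mathlib

set_option autoImplicit false
open MeasureTheory Set Filter
open scoped ENNReal Topology

namespace Pool.Agent.Y907.HM

variable {κ : Type} [Fintype κ] [DecidableEq κ]

/-- the linear form modulo one -/
noncomputable def ph (x : κ → ℝ) (q : κ → ℤ) : UnitAddCircle := ((∑ j, (q j : ℝ) * x j : ℝ) : UnitAddCircle)

theorem ph_add (x : κ → ℝ) (q q' : κ → ℤ) : ph x (q + q') = ph x q + ph x q' := by
  unfold ph
  rw [← AddCircle.coe_add, ← Finset.sum_add_distrib]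
  congr 1
  refine Finset.sum_congr rfl fun j _ => ?_
  simp only [Pi.add_apply, Int.cast_add]
  ring

theorem ph_sub (x : κ → ℝ) (q q' : κ → ℤ) : ph x (q - q') = ph x q - ph x q' := by
  have := ph_add x (q - q') q'
  rw [sub_add_cancel] at this
  rw [this, add_sub_cancel_right]

/-- points reachable with budget `a`, `b` -/
def V (x : κ → ℝ) (a : ℕ) (b : ℝ) : Set UnitAddCircle :=
  {θ | ∃ q : κ → ℤ, (∀ j, |q j| ≤ a) ∧ ‖θ - ph x q‖ ≤ b}

theorem V_meas (x : κ → ℝ) (a : ℕ) (b : ℝ) : MeasurableSet (V x a b) := by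
  have : V x a b = ⋃ q ∈ (Fintype.piFinset fun _ : κ => Finset.Icc (-(a:ℤ)) a),
      Metric.closedBall (ph x q) b := by
    ext θ
    simp only [V, mem_setOf_eq, Fintype.mem_piFinset, Finset.mem_Icc, mem_iUnion,
      Metric.mem_closedBall, dist_eq_norm, exists_prop, abs_le]
  rw [this]
  exact Finset.measurableSet_biUnion _ fun q _ => Metric.isClosed_closedBall.measurableSet

theorem V_mono (x : κ → ℝ) {a a' : ℕ} {b b' : ℝ} (h : a ≤ a') (h' : b ≤ b') :
    V x a b ⊆ V x a' b' := by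
  rintro θ ⟨q, hq, hθ⟩
  exact ⟨q, fun j => (hq j).trans (by exact_mod_cast h), hθ.trans h'⟩

theorem V_add (x : κ → ℝ) {a a' : ℕ} {b b' : ℝ} {θ θ' : UnitAddCircle} (h : θ ∈ V x a b)
    (h' : θ' ∈ V x a' b') : θ + θ' ∈ V x (a + a') (b + b') := by
  obtain ⟨q, hq, hθ⟩ := h
  obtain ⟨q', hq', hθ'⟩ := h'
  refine ⟨q + q', fun j => ?_, ?_⟩
  · have := abs_add_le (q j) (q' j)
    have h1 := hq j
    have h2 := hq' j
    push_cast
    simp only [Pi.add_apply]
    linarith
  · rw [ph_add]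
    have : θ + θ' - (ph x q + ph x q') = (θ - ph x q) + (θ' - ph x q') := by abel
    rw [this]
    exact (norm_add_le _ _).trans (add_le_add hθ hθ')

theorem V_sub (x : κ → ℝ) {a a' : ℕ} {b b' : ℝ} {θ θ' : UnitAddCircle} (h : θ ∈ V x a b)
    (h' : θ' ∈ V x a' b') : θ - θ' ∈ V x (a + a') (b + b') := by
  obtain ⟨q, hq, hθ⟩ := h
  obtain ⟨q', hq', hθ'⟩ := h'
  refine ⟨q - q', fun j => ?_, ?_⟩
  · have := abs_sub (q j) (q' j)
    have h1 := hq j
    have h2 := hq' j
    push_cast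
    simp only [Pi.sub_apply]
    linarith
  · rw [ph_sub]
    have : θ - θ' - (ph x q - ph x q') = (θ - ph x q) - (θ' - ph x q') := by abel
    rw [this]
    exact (norm_sub_le _ _).trans (add_le_add hθ hθ')

theorem norm_coe_le' (t : ℝ) : ‖(t : UnitAddCircle)‖ ≤ |t| := by
  rw [UnitAddCircle.norm_eq]
  have := round_le t 0
  simpa using this

/-- volume of the first set -/
theorem V_vol (x : κ → ℝ) {Q : ℕ} {δ : ℝ} (hδ0 : 0 < δ) (hδ1 : 2 * δ ≤ 1)
    (h : ∀ q : κ → ℤ, q ≠ 0 → (∀ j, |q j| ≤ Q) → 2 * δ < ‖ph x q‖) :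
    ENNReal.ofReal ((Q:ℝ) ^ (Fintype.card κ) * (2 * δ)) ≤ volume (V x Q δ) := by
  set S : Finset (κ → ℤ) := Fintype.piFinset fun _ : κ => Finset.Icc (1:ℤ) Q with hS
  have hsub : (⋃ q ∈ S, Metric.closedBall (ph x q) δ) ⊆ V x Q δ := by
    intro θ hθ
    simp only [mem_iUnion, exists_prop] at hθ
    obtain ⟨q, hq, hθ⟩ := hθ
    rw [hS, Fintype.mem_piFinset] at hq
    refine ⟨q, fun j => ?_, by rwa [Metric.mem_closedBall, dist_eq_norm] at hθ⟩
    have := Finset.mem_Icc.1 (hq j)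
    rw [abs_le]; constructor <;> omega
  have hdisj : (S : Set (κ → ℤ)).PairwiseDisjoint fun q => Metric.closedBall (ph x q) δ := by
    intro q hq q' hq' hne
    rw [Function.onFun, Set.disjoint_left]
    intro θ h1 h2
    rw [Metric.mem_closedBall, dist_eq_norm] at h1 h2
    rw [hS, Finset.mem_coe, Fintype.mem_piFinset] at hq hq'
    have h3 := h (q - q') (sub_ne_zero.2 hne) (fun j => by
      have e1 := Finset.mem_Icc.1 (hq j)
      have e2 := Finset.mem_Icc.1 (hq' j)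
      simp only [Pi.sub_apply]
      rw [abs_le]; constructor <;> omega)
    rw [ph_sub] at h3
    have h4 : ‖ph x q - ph x q'‖ ≤ ‖θ - ph x q'‖ + ‖θ - ph x q‖ := by
      have : ph x q - ph x q' = (θ - ph x q') - (θ - ph x q) := by abel
      rw [this]
      exact norm_sub_le _ _
    linarith
  refine le_trans (le_of_eq ?_) (measure_mono hsub)
  rw [measure_biUnion_finset hdisj (fun q _ => Metric.isClosed_closedBall.measurableSet)]
  have : ∀ q ∈ S, volume (Metric.closedBall (ph x q) δ) = ENNReal.ofReal (2 * δ) := by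
    intro q _
    rw [AddCircle.volume_closedBall, min_eq_right hδ1]
  rw [Finset.sum_congr rfl this, Finset.sum_const, hS, Fintype.card_piFinset]
  simp only [Int.card_Icc, Finset.prod_const, Finset.card_univ]
  rw [nsmul_eq_mul, ENNReal.ofReal_mul (p := (Q:ℝ) ^ (Fintype.card κ)) (by positivity)]
  congr 1
  rw [ENNReal.ofReal_pow (by positivity), ENNReal.ofReal_natCast]
  simp

/-- boundary point -/
theorem exists_bdry (S : Set UnitAddCircle) (h0 : (0 : UnitAddCircle) ∈ S) (hS : S ≠ univ)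
    {δ : ℝ} (hδ : 0 < δ) : ∃ z z' : UnitAddCircle, z ∉ S ∧ z' ∈ S ∧ ‖z - z'‖ ≤ δ := by
  obtain ⟨θ, hθ⟩ := (Set.ne_univ_iff_exists_notMem S).1 hS
  obtain ⟨t, rfl⟩ := QuotientAddGroup.mk_surjective θ
  obtain ⟨n, hn⟩ := exists_nat_gt (|t| / δ)
  have hn0 : 0 < (n : ℝ) := lt_of_le_of_lt (by positivity) hn
  by_contra hcon
  push Not at hcon
  apply hθ
  have hind : ∀ i : ℕ, (((i : ℝ) * (t / n) : ℝ) : UnitAddCircle) ∈ S := by
    intro i
    induction i with
    | zero => simpa using h0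
    | succ i ih =>
      by_contra hns
      have h1 := hcon _ _ hns ih
      rw [← AddCircle.coe_sub] at h1
      have h2 := norm_coe_le' (((i + 1 : ℕ) : ℝ) * (t / n) - (i : ℝ) * (t / n))
      have h3 : ((i + 1 : ℕ) : ℝ) * (t / n) - (i : ℝ) * (t / n) = t / n := by push_cast; ring
      rw [h3] at h1 h2
      rw [abs_div, abs_of_pos hn0] at h2
      have h4 : |t| / n ≤ δ := by
        rw [div_le_iff₀ hn0]
        rw [div_lt_iff₀ hδ] at hn
        linarith
      linarith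
  have := hind n
  rwa [mul_div_cancel₀ _ hn0.ne'] at this

/-- growth -/
theorem V_grow (x : κ → ℝ) (Q : ℕ) {δ : ℝ} (hδ : 0 < δ) (k : ℕ)
    (h : V x ((k + 1) * Q) ((k + 1 : ℕ) * δ) ≠ univ) :
    volume (V x (k * Q) (k * δ)) + volume (V x Q δ) ≤
      volume (V x ((k + 3) * Q) ((k + 3 : ℕ) * δ)) := by
  have h0 : (0 : UnitAddCircle) ∈ V x ((k + 1) * Q) ((k + 1 : ℕ) * δ) := by
    refine ⟨0, fun j => by simp, ?_⟩
    have : ph x 0 = 0 := by simp [ph]
    rw [this]
    simp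
    positivity
  obtain ⟨z, z', hz, hz', hzz⟩ := exists_bdry _ h0 h hδ
  have hzV : z ∈ V x ((k + 2) * Q) ((k + 2 : ℕ) * δ) := by
    obtain ⟨q, hq, hq2⟩ := hz'
    refine ⟨q, fun j => (hq j).trans ?_, ?_⟩
    · push_cast
      nlinarith
    · have : z - ph x q = (z - z') + (z' - ph x q) := by abel
      rw [this]
      refine (norm_add_le _ _).trans ?_
      push_cast at hq2 ⊢
      linarith
  have hdisj : Disjoint (V x (k * Q) (k * δ)) ((fun θ => z + θ) '' V x Q δ) := by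
    rw [Set.disjoint_left]
    rintro _ h1 ⟨u, hu, rfl⟩
    apply hz
    have h2 := V_sub x h1 hu
    have h3 : z + u - u = z := by abel
    simp only [h3] at h2
    refine V_mono x ?_ ?_ h2
    · nlinarith
    · push_cast; linarith
  have hsub : V x (k * Q) (k * δ) ∪ ((fun θ => z + θ) '' V x Q δ) ⊆
      V x ((k + 3) * Q) ((k + 3 : ℕ) * δ) := by
    rintro θ (h1 | ⟨u, hu, rfl⟩)
    · refine V_mono x ?_ ?_ h1
      · nlinarith
      · push_cast; nlinarith
    · have h2 := V_add x hzV hu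
      refine V_mono x ?_ ?_ h2
      · nlinarith
      · push_cast; linarith
  have hmeas : MeasurableSet ((fun θ => z + θ) '' V x Q δ) := by
    have : (fun θ => z + θ) '' V x Q δ = (fun θ => -z + θ) ⁻¹' V x Q δ := by
      ext θ
      simp only [mem_image, mem_preimage]
      constructor
      · rintro ⟨u, hu, rfl⟩; simpa using hu
      · intro h; exact ⟨-z + θ, h, by abel⟩
    rw [this]
    exact (measurable_const_add (-z)) (V_meas x Q δ)
  have hvol : volume ((fun θ => z + θ) '' V x Q δ) = volume (V x Q δ) := by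
    have : (fun θ => z + θ) '' V x Q δ = (fun θ => -z + θ) ⁻¹' V x Q δ := by
      ext θ
      simp only [mem_image, mem_preimage]
      constructor
      · rintro ⟨u, hu, rfl⟩; simpa using hu
      · intro h; exact ⟨-z + θ, h, by abel⟩
    rw [this, measure_preimage_add]
  calc volume (V x (k * Q) (k * δ)) + volume (V x Q δ)
      = volume (V x (k * Q) (k * δ)) + volume ((fun θ => z + θ) '' V x Q δ) := by rw [hvol]
    _ = volume (V x (k * Q) (k * δ) ∪ ((fun θ => z + θ) '' V x Q δ)) :=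
        (measure_union hdisj hmeas).symm
    _ ≤ _ := measure_mono hsub

theorem V_all (x : κ → ℝ) (Q : ℕ) {δ c : ℝ} (hδ0 : 0 < δ) (hδ1 : 2 * δ ≤ 1)
    (h : ∀ q : κ → ℤ, q ≠ 0 → (∀ j, |q j| ≤ Q) → 2 * δ < ‖ph x q‖)
    (hc : c ≤ (Q:ℝ) ^ (Fintype.card κ) * (2 * δ)) (J : ℕ) (hJ : 1 < J * c) (hc0 : 0 ≤ c) :
    V x (3 * J * Q) ((3 * J : ℕ) * δ) = univ := by
  by_contra hne
  have hvol := V_vol x hδ0 hδ1 h
  have h1 : ∀ j : ℕ, j ≤ J → ENNReal.ofReal (j * c) ≤ volume (V x (3 * j * Q) ((3 * j : ℕ) * δ)) := by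
    intro j
    induction j with
    | zero => intro _; simp
    | succ j ih =>
      intro hj
      have h2 := ih (by omega)
      have hne' : V x ((3 * j + 1) * Q) ((3 * j + 1 : ℕ) * δ) ≠ univ := by
        intro he
        apply hne
        rw [Set.eq_univ_iff_forall] at he ⊢
        intro θ
        refine V_mono x ?_ ?_ (he θ)
        · have : 3 * j + 1 ≤ 3 * J := by omega
          exact Nat.mul_le_mul_right _ this
        · have : ((3 * j + 1 : ℕ) : ℝ) ≤ ((3 * J : ℕ) : ℝ) := by exact_mod_cast (by omega)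
          exact mul_le_mul_of_nonneg_right this hδ0.le
      have h3 := V_grow x Q hδ0 (3 * j) hne'
      have h4 : 3 * j + 3 = 3 * (j + 1) := by ring
      rw [h4] at h3
      refine le_trans ?_ h3
      calc ENNReal.ofReal (((j + 1 : ℕ) : ℝ) * c) = ENNReal.ofReal (j * c) + ENNReal.ofReal c := by
            rw [← ENNReal.ofReal_add (by positivity) hc0]
            congr 1
            push_cast
            ring
        _ ≤ _ := by
            refine add_le_add ?_ ((ENNReal.ofReal_le_ofReal hc).trans hvol)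
            exact h2
  have h2 := h1 J le_rfl
  have h3 : volume (V x (3 * J * Q) ((3 * J : ℕ) * δ)) ≤ 1 :=
    (measure_mono (subset_univ _)).trans UnitAddCircle.measure_univ.le
  have h4 := h2.trans h3
  rw [ENNReal.ofReal_le_one] at h4
  linarith

/-- the inhomogeneous covering statement with a shift -/
theorem cover (x : κ → ℝ) (j0 : κ) (Q : ℕ) {δ c : ℝ} (hδ0 : 0 < δ) (hδ1 : 2 * δ ≤ 1)
    (h : ∀ q : κ → ℤ, q ≠ 0 → (∀ j, |q j| ≤ Q) → 2 * δ < ‖ph x q‖)
    (hc : c ≤ (Q:ℝ) ^ (Fintype.card κ) * (2 * δ)) (J : ℕ) (hJ : 1 < J * c) (hc0 : 0 ≤ c) (θ : ℝ) :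
    ∃ q : κ → ℤ, ((3 * J * Q : ℕ) : ℤ) ≤ q j0 ∧ (∀ j, |q j| ≤ ((9 * J * Q : ℕ) : ℤ)) ∧
      ∃ p : ℤ, |∑ j, (q j : ℝ) * x j - p - θ| ≤ (3 * J : ℕ) * δ := by
  have hall := V_all x Q hδ0 hδ1 h hc J hJ hc0
  set q0 : κ → ℤ := Pi.single j0 ((6 * J * Q : ℕ) : ℤ) with hq0
  have hmem : ((θ : UnitAddCircle) - ph x q0) ∈ V x (3 * J * Q) ((3 * J : ℕ) * δ) := by
    rw [hall]; trivial
  obtain ⟨q, hq, hq2⟩ := hmem
  have hqj0 : (q + q0) j0 = q j0 + ((6 * J * Q : ℕ) : ℤ) := by simp [hq0]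
  refine ⟨q + q0, ?_, fun j => ?_, ?_⟩
  · have h1 := abs_le.1 (hq j0)
    rw [hqj0]
    push_cast at h1 ⊢
    linarith [h1.1]
  · by_cases hj : j = j0
    · subst hj
      have h1 := abs_le.1 (hq j)
      rw [hqj0, abs_le]
      push_cast at h1 ⊢
      constructor <;> nlinarith [h1.1, h1.2]
    · have h1 : (q + q0) j = q j := by simp [hq0, hj]
      rw [h1]
      refine (hq j).trans ?_
      push_cast
      nlinarith [(Nat.cast_nonneg J : (0:ℤ) ≤ (J:ℤ)), (Nat.cast_nonneg Q : (0:ℤ) ≤ (Q:ℤ))]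
  · have h1 : (θ : UnitAddCircle) - ph x q0 - ph x q =
        ((-(∑ j, (((q + q0) j : ℤ) : ℝ) * x j - θ) : ℝ) : UnitAddCircle) := by
      have h2 : ph x (q + q0) = ph x q + ph x q0 := ph_add x q q0
      rw [AddCircle.coe_neg, AddCircle.coe_sub]
      change _ = -(ph x (q + q0) - (θ : UnitAddCircle))
      rw [h2]
      abel
    rw [h1, UnitAddCircle.norm_eq] at hq2
    refine ⟨-round (-(∑ j, (((q + q0) j : ℤ) : ℝ) * x j - θ)), ?_⟩
    rw [← abs_neg] at hq2
    refine le_trans (le_of_eq ?_) hq2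
    congr 1
    push_cast
    ring

end Pool.Agent.Y907.HM
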