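import Pool.Agent.Y907.HM.Cantor
import Pool.Agent.Y907.HM.Ae
import Pool.Agent.Y907.HM.Cond

set_option autoImplicit false
open MeasureTheory Set Filter
open scoped ENNReal Topology

namespace Pool.Agent.Y907.HM

/-- the gauge attached to a dimension function -/
theorem gauge_of {f : ℝ → ℝ} {n : ℕ} (hn : 1 ≤ n) {s C : ℝ} (hf0 : ∀ x, 0 < x → 0 < f x)
    (hs1 : (n:ℝ) - 1 < s) (hs2 : s < n)
    (hA : ∀ x y, 0 < x → x < y → f y ≤ C * (y / x) ^ s * f x)
    (hinc : ∀ x y, 0 < x → x ≤ y → f x / x ^ (n - 1) ≤ f y / y ^ (n - 1)) :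
    Gauge (fun x => f x / x ^ (n - 1)) (s - (n - 1)) (max C 1) := by
  refine ⟨fun x hx => by have := hf0 x hx; positivity, hinc, ?_, by linarith, by linarith⟩
  intro x y hx hxy
  have hy : 0 < y := hx.trans_le hxy
  have h1 : f y ≤ max C 1 * (y / x) ^ s * f x := by
    rcases hxy.eq_or_lt with h | h
    · subst h
      rw [div_self hx.ne', Real.one_rpow, mul_one]
      have := hf0 x hx
      nlinarith [le_max_right C 1]
    · refine (hA x y hx h).trans ?_
      have := hf0 x hx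
      have h2 : 0 < (y / x) ^ s := Real.rpow_pos_of_pos (by positivity) _
      gcongr
      exact le_max_left _ _
  have h2 : (y / x) ^ s = (y / x) ^ (s - (n - 1)) * (y / x) ^ (n - 1) := by
    rw [← Real.rpow_natCast (y / x) (n - 1), ← Real.rpow_add (by positivity)]
    congr 1
    push_cast [hn]
    ring
  rw [h2] at h1
  have hxn : 0 < x ^ (n - 1) := by positivity
  have hyn : 0 < y ^ (n - 1) := by positivity
  show f y / y ^ (n - 1) ≤ max C 1 * (y / x) ^ (s - (n - 1)) * (f x / x ^ (n - 1))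
  rw [div_le_iff₀ hyn]
  refine h1.trans (le_of_eq ?_)
  rw [div_pow]
  field_simp

/-- distance to the nearest integer -/
noncomputable def nint (t : ℝ) : ℝ := |t - round t|

theorem nint_le (t : ℝ) (p : ℤ) : nint t ≤ |t - p| := round_le t p

theorem nint_nonneg (t : ℝ) : 0 ≤ nint t := abs_nonneg _

theorem nint_le_one (t : ℝ) : nint t ≤ 1 := (abs_sub_round t).trans (by norm_num)

/-- cost of a covering set -/
noncomputable def cost {E : Type} [PseudoEMetricSpace E] (f : ℝ → ℝ) (B : Set E) : ℝ≥0∞ :=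
  open Classical in if Metric.ediam B = 0 then 0 else ENNReal.ofReal (f (Metric.ediam B).toReal)

/-- the limsup set -/
def WW (m d : ℕ) (θ : Fin d → ℝ) (ψ : ℕ → ℝ) : Set (EuclideanSpace ℝ (Fin d × Fin m)) :=
  {X | (∀ a, X a ∈ Icc (0:ℝ) 1) ∧ {q : Fin m → ℤ | q ≠ 0 ∧
    ∏ i, nint (∑ j, (q j : ℝ) * X (i, j) - θ i) < ψ (supN q)}.Infinite}

section slice

variable {m d : ℕ} (i0 : Fin d) (j0 : Fin m)

/-- index set of the remaining coordinates -/
abbrev Ax : Type := {a : Fin d × Fin m // a ≠ (i0, j0)}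

/-- a point from its distinguished coordinate and the others -/
noncomputable def mk (t : ℝ) (y : Ax i0 j0 → ℝ) : EuclideanSpace ℝ (Fin d × Fin m) :=
  WithLp.toLp 2 fun a => if h : a = (i0, j0) then t else y ⟨a, h⟩

theorem mk_self (t : ℝ) (y : Ax i0 j0 → ℝ) : mk i0 j0 t y (i0, j0) = t := by
  simp [mk]

theorem mk_ne (t : ℝ) (y : Ax i0 j0 → ℝ) (a : Ax i0 j0) : mk i0 j0 t y a.1 = y a := by
  simp [mk, a.2]

theorem coord_le (X Y : EuclideanSpace ℝ (Fin d × Fin m)) (a : Fin d × Fin m) :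
    |X a - Y a| ≤ dist X Y := by
  have := PiLp.norm_apply_le (X - Y) a
  rw [dist_eq_norm]
  simpa using this

/-- embedding of the other coordinates of the first column -/
def ex (j : Fin m) (h : j ≠ j0) : Ax i0 j0 := ⟨(i0, j), fun h' => h (Prod.mk.inj h').2⟩

theorem mk_col (t : ℝ) (y : Ax i0 j0 → ℝ) (j : Fin m) :
    mk i0 j0 t y (i0, j) = Function.update (zy j0 (ex i0 j0) y) j0 t j := by
  by_cases h : j = j0
  · subst h
    rw [mk_self, Function.update_self]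
  · rw [Function.update_of_ne h, zy, dif_neg h]
    exact mk_ne i0 j0 t y (ex i0 j0 j h)

end slice

/-- points of the Cantor type set lie in `WW` -/
theorem mem_WW {m d : ℕ} (i0 : Fin d) (j0 : Fin m) (θ : Fin d → ℝ) (ψ : ℕ → ℝ)
    (hψ : ∀ r s, 1 ≤ r → r ≤ s → ψ s ≤ ψ r) (hpos : ∀ r, 1 ≤ r → 0 < ψ r) (M J : ℕ) (hM : 2 ≤ M)
    (hJ0 : 0 < J) (hMJ : 9 * J ≤ M) (r : ℕ → ℝ) (hr : ∀ k, r k ≤ ψ (M ^ (k+1)) / (M:ℝ) ^ (k+1))
    (y : Ax i0 j0 → ℝ) (hy : ∀ a, y a ∈ Icc (0:ℝ) 1) (t : ℝ) (ht : t ∈ Icc (0:ℝ) 1)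
    (h : ∀ K : ℕ, ∃ k, K ≤ k ∧ ∃ x ∈ Rs j0 (θ i0) (zy j0 (ex i0 j0) y) (3 * J * M ^ k) (9 * J * M ^ k),
      |t - x| ≤ r k / 2) :
    mk i0 j0 t y ∈ WW m d θ ψ := by
  classical
  have hM0 : (0:ℝ) < M := by exact_mod_cast (by omega : 0 < M)
  refine ⟨fun a => ?_, fun hfin => ?_⟩
  · by_cases ha : a = (i0, j0)
    · rw [ha, mk_self]; exact ht
    · have := mk_ne i0 j0 t y ⟨a, ha⟩
      simp only at this
      rw [this]
      exact hy _
  · -- unboundedness
    have hfin2 := hfin.image fun q : Fin m → ℤ => q j0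
    obtain ⟨B, hB⟩ := hfin2.bddAbove
    obtain ⟨k, hk, x, ⟨q, hq1, hq2, p, hp⟩, htx⟩ := h (B.toNat + 1)
    have hkM : k < M ^ k := Nat.lt_pow_self (by omega)
    have hq0 : (0:ℤ) < q j0 := by
      refine lt_of_lt_of_le ?_ hq1
      have : 0 < 3 * J * M ^ k := by positivity
      exact_mod_cast this
    have hqne : q ≠ 0 := by
      intro h0
      rw [h0] at hq0
      simp at hq0
    have hbig : B < q j0 := by
      refine lt_of_lt_of_le ?_ hq1
      have h1 : B.toNat + 1 ≤ 3 * J * M ^ k := by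
        have : M ^ k ≤ 3 * J * M ^ k := Nat.le_mul_of_pos_left _ (by omega)
        omega
      have h2 : B ≤ (B.toNat : ℤ) := Int.self_le_toNat B
      have h3 : ((B.toNat + 1 : ℕ) : ℤ) ≤ ((3 * J * M ^ k : ℕ) : ℤ) := by exact_mod_cast h1
      push_cast at h3 ⊢
      linarith
    refine absurd (hB ⟨q, ⟨hqne, ?_⟩, rfl⟩) (not_le.2 hbig)
    -- the inequality
    have hsN : supN q ≤ M ^ (k + 1) := by
      refine (supN_le q _ hq2).trans ?_
      rw [pow_succ, mul_comm (M ^ k) M]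
      exact Nat.mul_le_mul_right _ hMJ
    have hsp := supN_pos hqne
    have hψ1 : ψ (M ^ (k+1)) ≤ ψ (supN q) := hψ _ _ hsp hsN
    have hψ2 := hpos (M ^ (k+1)) (Nat.one_le_pow _ _ (by omega))
    have hfirst : nint (∑ j, (q j : ℝ) * mk i0 j0 t y (i0, j) - θ i0) < ψ (supN q) := by
      have hq0R : (0:ℝ) < q j0 := by exact_mod_cast hq0
      have h1 : ∑ j, (q j : ℝ) * mk i0 j0 t y (i0, j) - θ i0 - p = (q j0 : ℝ) * (t - x) := by
        have h2 : ∑ j, (q j : ℝ) * mk i0 j0 t y (i0, j) =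
            ∑ j, (q j : ℝ) * Function.update (zy j0 (ex i0 j0) y) j0 t j :=
          Finset.sum_congr rfl fun j _ => by rw [mk_col]
        rw [h2, sum_upd]
        rw [sum_upd] at hp
        linarith
      refine (nint_le _ p).trans_lt ?_
      rw [h1, abs_mul, abs_of_pos hq0R]
      have h3 : (q j0 : ℝ) ≤ (M:ℝ) ^ (k+1) := by
        have h4 := (abs_le.1 (hq2 j0)).2
        have h5 : ((9 * J * M ^ k : ℕ) : ℤ) ≤ ((M ^ (k+1) : ℕ) : ℤ) := by
          have : 9 * J * M ^ k ≤ M ^ (k + 1) := by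
            rw [pow_succ, mul_comm (M ^ k) M]
            exact Nat.mul_le_mul_right _ hMJ
          exact_mod_cast this
        have h6 := h4.trans h5
        have h7 : ((q j0 : ℤ) : ℝ) ≤ (((M ^ (k+1) : ℕ) : ℤ) : ℝ) := by exact_mod_cast h6
        push_cast at h7
        exact h7
      calc (q j0 : ℝ) * |t - x| ≤ (M:ℝ) ^ (k+1) * (ψ (M ^ (k+1)) / (M:ℝ) ^ (k+1) / 2) := by
            gcongr
            exact htx.trans (by have := hr k; linarith)
        _ = ψ (M ^ (k+1)) / 2 := by field_simp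
        _ < ψ (supN q) := by linarith
    calc ∏ i, nint (∑ j, (q j : ℝ) * mk i0 j0 t y (i, j) - θ i)
        = nint (∑ j, (q j : ℝ) * mk i0 j0 t y (i0, j) - θ i0) *
          ∏ i ∈ Finset.univ.erase i0, nint (∑ j, (q j : ℝ) * mk i0 j0 t y (i, j) - θ i) := by
          exact (Finset.mul_prod_erase Finset.univ
            (fun i => nint (∑ j, (q j : ℝ) * mk i0 j0 t y (i, j) - θ i)) (Finset.mem_univ i0)).symm
      _ ≤ nint (∑ j, (q j : ℝ) * mk i0 j0 t y (i0, j) - θ i0) * 1 := by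
          refine mul_le_mul_of_nonneg_left ?_ (nint_nonneg _)
          exact Finset.prod_le_one (fun i _ => nint_nonneg _) (fun i _ => nint_le_one _)
      _ < ψ (supN q) := by rw [mul_one]; exact hfirst

theorem exists_eps {f : ℝ → ℝ} (hf : Tendsto f (𝓝[>] 0) (𝓝 0)) (ρ : ℝ) (hρ : 0 < ρ) :
    ∃ ε : ℕ → ℝ, (∀ i, 0 < ε i) ∧ (∀ i, ε i ≤ ρ) ∧ ∀ i, f (ε i) ≤ (1 / 2) ^ (i + 1) := by
  have h : ∀ i : ℕ, ∃ x : ℝ, 0 < x ∧ x ≤ ρ ∧ f x ≤ (1 / 2) ^ (i + 1) := by
    intro i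
    have h1 := hf.eventually_le_const (show (0:ℝ) < (1 / 2) ^ (i + 1) by positivity)
    have h2 : ∀ᶠ x : ℝ in 𝓝[>] 0, x ≤ ρ :=
      (tendsto_id.mono_left nhdsWithin_le_nhds : Tendsto (fun x : ℝ => x) (𝓝[>] 0) (𝓝 0)).eventually_le_const hρ
    have h3 : ∀ᶠ x : ℝ in 𝓝[>] 0, 0 < x := eventually_mem_nhdsWithin
    obtain ⟨x, hx1, hx2, hx3⟩ := (h1.and (h2.and h3)).exists
    exact ⟨x, hx3, hx2, hx1⟩
  choose ε h1 h2 h3 using h
  exact ⟨ε, h1, h2, h3⟩

open Classical in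
/-- the main estimate: every fine cover is expensive -/
theorem cover_lower {m d : ℕ} (hm : 1 ≤ m) (hd : 1 ≤ d) (θ : Fin d → ℝ) (ψ : ℕ → ℝ)
    (hψ0 : ∀ r, 0 ≤ ψ r) (hψ : ∀ r s, 1 ≤ r → r ≤ s → ψ s ≤ ψ r) {f : ℝ → ℝ} {s C : ℝ}
    (hf0 : ∀ x, 0 < x → 0 < f x) (hft : Tendsto f (𝓝[>] 0) (𝓝 0))
    (hs1 : ((m * d : ℕ):ℝ) - 1 < s) (hs2 : s < ((m * d : ℕ) : ℝ))
    (hA : ∀ x y, 0 < x → x < y → f y ≤ C * (y / x) ^ s * f x)
    (hinc : ∀ x y, 0 < x → x ≤ y → f x / x ^ (m * d - 1) ≤ f y / y ^ (m * d - 1))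
    (hsum : ∑' q : Fin m → ℤ, (if q = 0 ∨ ψ (supN q) = 0 then 0 else
      ENNReal.ofReal ((supN q : ℝ) * (f (ψ (supN q) / supN q) / (ψ (supN q) / supN q) ^ (m * d - 1)))) = ⊤)
    (F : ℝ) (hF : 0 ≤ F) :
    ∃ ρ : ℝ, 0 < ρ ∧ ∀ B : ℕ → Set (EuclideanSpace ℝ (Fin d × Fin m)),
      (∀ i, Metric.ediam (B i) ≤ ENNReal.ofReal ρ) → WW m d θ ψ ⊆ ⋃ i, B i →
      ENNReal.ofReal F ≤ ∑' i, cost f (B i) := by
  have hn : 1 ≤ m * d := Nat.mul_pos hm hd
  set g : ℝ → ℝ := fun x => f x / x ^ (m * d - 1) with hgdef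
  have hg : Gauge g (s - ((m * d : ℕ) - 1)) (max C 1) := gauge_of hn hf0 hs1 hs2 hA hinc
  set σ := s - (((m * d : ℕ) : ℝ) - 1) with hσ
  let i0 : Fin d := ⟨0, hd⟩
  let j0 : Fin m := ⟨0, hm⟩
  -- constants
  set c : ℝ := 1 / (8 * 3 ^ m) with hc
  have hc0 : 0 < c := by positivity
  have hc8 : 8 * 3 ^ (Fintype.card (Fin m)) * c ≤ 1 := by
    rw [Fintype.card_fin, hc]
    apply le_of_eq
    field_simp
  set J : ℕ := 8 * 3 ^ m + 1 with hJ
  have hJ0 : 0 < J := by omega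
  have hJc : 1 < J * c := by
    rw [hJ, hc]
    push_cast
    rw [mul_one_div, one_lt_div (by positivity)]
    linarith
  set C2 : ℝ := (19 * J) ^ (Fintype.card (Fin m)) * (10 * J) with hC2
  have hJ1 : (1:ℝ) ≤ J := by exact_mod_cast hJ0
  have hC21 : 1 ≤ C2 := by
    have h1 : (1:ℝ) ≤ (19 * J) ^ (Fintype.card (Fin m)) := one_le_pow₀ (by linarith)
    nlinarith
  set M : ℕ := 9 * J + 400 * ((19 * J) ^ (Fintype.card (Fin m)) * (10 * J)) with hM
  have hM2 : 2 ≤ M := by omega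
  have hMJ : 9 * J ≤ M := by omega
  have hM1 : (1:ℝ) ≤ M := by exact_mod_cast (by omega : 1 ≤ M)
  have hM0 : (0:ℝ) < M := by linarith
  have hMC : 400 * 1 * C2 ≤ (M:ℝ) ^ (Fintype.card (Fin m) + 1) := by
    have h1 : 400 * 1 * C2 ≤ M := by
      rw [hM, hC2]; push_cast; linarith
    refine h1.trans ?_
    exact le_self_pow₀ hM1 (by omega)
  obtain ⟨hψpos, hdiv⟩ := cond hg ψ hψ0 hψ M hM2 hsum
  set N : ℕ → ℝ := fun k => ((M:ℝ) ^ k) ^ (Fintype.card (Fin m) + 1) with hN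
  set r : ℕ → ℝ := fun k => min (ψ (M ^ (k+1)) / (M:ℝ) ^ (k+1)) (1 / N k) with hr
  have hN0 : ∀ k, 0 < N k := fun k => by simp only [hN]; positivity
  have hr0 : ∀ k, 0 < r k := fun k => by
    have := hψpos (M ^ (k+1)) (Nat.one_le_pow _ _ (by omega))
    have := hN0 k
    simp only [hr]
    positivity
  have hΛ : ∀ k, (M:ℝ) ^ (Fintype.card (Fin m) + 1) * N k ≤ N (k + 1) := fun k => by
    apply le_of_eq
    simp only [hN]
    ring
  -- the number ρ
  set F2 : ℝ := 2 ^ (m * d - 1) * (F + 1) + 1 with hF2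
  have hF20 : 0 ≤ F2 := by positivity
  obtain ⟨ρ, hρ0, hρ1, hρ⟩ := exists_rho hg (1 / (16 * (2 + 4 * (1:ℝ)))) F2 (by norm_num)
  refine ⟨ρ, hρ0, fun B hBd hBW => ?_⟩
  by_contra hcon
  push Not at hcon
  obtain ⟨ε, hε0, hερ, hεf⟩ := exists_eps hft ρ hρ0
  set δ : ℕ → ℝ := fun i => if Metric.ediam (B i) = 0 then ε i else (Metric.ediam (B i)).toReal with hδ
  have hBtop : ∀ i, Metric.ediam (B i) ≠ ⊤ := fun i => ((hBd i).trans_lt ENNReal.ofReal_lt_top).ne
  have hδ0 : ∀ i, 0 < δ i := by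
    intro i
    simp only [hδ]
    split_ifs with h
    · exact hε0 i
    · exact ENNReal.toReal_pos h (hBtop i)
  have hδρ : ∀ i, δ i ≤ ρ := by
    intro i
    simp only [hδ]
    split_ifs with h
    · exact hερ i
    · exact ENNReal.toReal_le_of_le_ofReal hρ0.le (hBd i)
  have hδdist : ∀ i, ∀ X ∈ B i, ∀ Y ∈ B i, dist X Y ≤ δ i := by
    intro i X hX Y hY
    have h1 : edist X Y ≤ Metric.ediam (B i) := Metric.edist_le_ediam_of_mem hX hY
    simp only [hδ]
    split_ifs with h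
    · rw [h] at h1
      have h2 : edist X Y = 0 := le_antisymm h1 zero_le
      rw [edist_eq_zero] at h2
      rw [h2, dist_self]
      exact (hε0 i).le
    · rw [dist_edist]
      exact ENNReal.toReal_mono (hBtop i) h1
  have hcost : ∑' i, ENNReal.ofReal (f (δ i)) ≤ ENNReal.ofReal (F + 1) := by
    have h1 : ∀ i, ENNReal.ofReal (f (δ i)) ≤ cost f (B i) + ENNReal.ofReal ((1 / 2) ^ (i + 1)) := by
      intro i
      simp only [hδ, cost]
      split_ifs with h
      · rw [zero_add]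
        exact ENNReal.ofReal_le_ofReal (hεf i)
      · exact le_self_add
    calc ∑' i, ENNReal.ofReal (f (δ i))
        ≤ ∑' i, (cost f (B i) + ENNReal.ofReal ((1 / 2) ^ (i + 1))) := ENNReal.tsum_le_tsum h1
      _ = ∑' i, cost f (B i) + ∑' i : ℕ, ENNReal.ofReal ((1 / 2 : ℝ) ^ (i + 1)) := ENNReal.tsum_add
      _ ≤ ENNReal.ofReal F + ENNReal.ofReal 1 := by
          refine add_le_add hcon.le ?_
          rw [← ENNReal.ofReal_tsum_of_nonneg (fun i => by positivity)]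
          · apply ENNReal.ofReal_le_ofReal
            apply le_of_eq
            have := tsum_geometric_two
            have h2 : ∑' i : ℕ, (1 / 2 : ℝ) ^ (i + 1) = (∑' i : ℕ, (1 / 2 : ℝ) ^ i) * (1 / 2) := by
              rw [← tsum_mul_right]
              exact tsum_congr fun i => pow_succ _ _
            rw [h2, this]
            norm_num
          · exact (summable_nat_add_iff 1).2 summable_geometric_two
      _ = _ := by rw [← ENNReal.ofReal_add hF zero_le_one]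
  -- base points
  have hbp : ∀ i, ∃ b : EuclideanSpace ℝ (Fin d × Fin m), (B i).Nonempty → b ∈ B i := by
    intro i
    by_cases h : (B i).Nonempty
    · obtain ⟨X, hX⟩ := h
      exact ⟨X, fun _ => hX⟩
    · exact ⟨0, fun h' => (h h').elim⟩
  choose bp hbp using hbp
  let Qb : ℕ → Set (Ax i0 j0 → ℝ) := fun i => Set.pi univ fun a => Metric.closedBall (bp i a.1) (δ i)
  have hQm : ∀ i, MeasurableSet (Qb i) := fun i =>
    MeasurableSet.univ_pi fun a => Metric.isClosed_closedBall.measurableSet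
  have hQin : ∀ i t y, mk i0 j0 t y ∈ B i → y ∈ Qb i := by
    intro i t y h
    rw [Set.mem_univ_pi]
    intro a
    rw [Metric.mem_closedBall, Real.dist_eq]
    have h1 := coord_le (mk i0 j0 t y) (bp i) a.1
    rw [mk_ne] at h1
    exact h1.trans (hδdist i _ h _ (hbp i ⟨_, h⟩))
  have hcardA : Fintype.card (Ax i0 j0) = m * d - 1 := by
    rw [Fintype.card_subtype_compl]
    simp [mul_comm]
  have hQvol : ∀ i, cub (Ax i0 j0) (Qb i) ≤ ENNReal.ofReal (2 ^ (m * d - 1) * δ i ^ (m * d - 1)) := by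
    intro i
    unfold cub
    rw [Measure.pi_pi]
    calc ∏ a : Ax i0 j0, ((volume : Measure ℝ).restrict (Icc 0 1)) (Metric.closedBall (bp i a.1) (δ i))
        ≤ ∏ _a : Ax i0 j0, ENNReal.ofReal (2 * δ i) := by
          refine Finset.prod_le_prod' fun a _ => ?_
          refine (Measure.restrict_apply_le _ _).trans ?_
          rw [Real.volume_closedBall]
      _ = _ := by
          rw [Finset.prod_const, Finset.card_univ, hcardA, ← ENNReal.ofReal_pow (by
            have := hδ0 i; positivity), mul_pow]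
  let S : (Ax i0 j0 → ℝ) → ℝ≥0∞ := fun y => ∑' i, (Qb i).indicator (fun _ => ENNReal.ofReal (g (δ i))) y
  have hSint : ∫⁻ y, S y ∂(cub (Ax i0 j0)) ≤ ENNReal.ofReal (2 ^ (m * d - 1) * (F + 1)) := by
    rw [lintegral_tsum (fun i => (measurable_const.indicator (hQm i)).aemeasurable)]
    calc ∑' i, ∫⁻ y, (Qb i).indicator (fun _ => ENNReal.ofReal (g (δ i))) y ∂(cub (Ax i0 j0))
        ≤ ∑' i, ENNReal.ofReal (2 ^ (m * d - 1)) * ENNReal.ofReal (f (δ i)) := by
          refine ENNReal.tsum_le_tsum fun i => ?_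
          rw [lintegral_indicator_const (hQm i)]
          have hδi := hδ0 i
          have hgi := hg.pos _ hδi
          calc ENNReal.ofReal (g (δ i)) * cub (Ax i0 j0) (Qb i)
              ≤ ENNReal.ofReal (g (δ i)) * ENNReal.ofReal (2 ^ (m * d - 1) * δ i ^ (m * d - 1)) := by
                gcongr
                exact hQvol i
            _ = ENNReal.ofReal (2 ^ (m * d - 1)) * ENNReal.ofReal (f (δ i)) := by
                rw [← ENNReal.ofReal_mul hgi.le, ← ENNReal.ofReal_mul (by positivity)]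
                congr 1
                simp only [hgdef]
                field_simp
      _ = ENNReal.ofReal (2 ^ (m * d - 1)) * ∑' i, ENNReal.ofReal (f (δ i)) := ENNReal.tsum_mul_left
      _ ≤ ENNReal.ofReal (2 ^ (m * d - 1)) * ENNReal.ofReal (F + 1) := by gcongr
      _ = _ := by rw [← ENNReal.ofReal_mul (by positivity)]
  -- almost every slice is expensive
  have hcube : ∀ᵐ y ∂(cub (Ax i0 j0)), ∀ a, y a ∈ Icc (0:ℝ) 1 := by
    rw [ae_all_iff]
    intro a
    have h1 : cub (Ax i0 j0) {y | y a ∉ Icc (0:ℝ) 1} ≤ 0 := by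
      refine fub a ((measurable_pi_apply a) measurableSet_Icc).compl fun y => ?_
      have hsub : {t : ℝ | Function.update y a t ∈ ((fun f : Ax i0 j0 → ℝ => f a) ⁻¹' Icc (0:ℝ) 1)ᶜ} ⊆
          (Icc (0:ℝ) 1)ᶜ := by
        intro t ht
        simpa using ht
      refine (measure_mono hsub).trans ?_
      rw [Measure.restrict_apply' measurableSet_Icc]
      simp
    exact le_antisymm h1 zero_le
  have hae : ∀ᵐ y ∂(cub (Ax i0 j0)), ENNReal.ofReal F2 ≤ S y := by
    filter_upwards [hcube, ae_slice (A := Ax i0 j0) j0 (ex i0 j0) (fun j j' h h' he => by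
      have := congrArg (fun a : Ax i0 j0 => a.1.2) he
      simpa [ex] using this) M hM2 hc0 hc8] with y hyc hys
    by_contra hlt
    push Not at hlt
    have hUb := ubi_slice j0 (θ i0) (zy j0 (ex i0 j0) y) M J hM2 hJ0 hc0 hc8 hJc hys
    let ι' : Type := {i : ℕ // y ∈ Qb i}
    have hSy : ∑' i : ι', ENNReal.ofReal (g (δ i.1)) = S y := by
      have h1 := tsum_subtype {i : ℕ | y ∈ Qb i} (fun i => ENNReal.ofReal (g (δ i)))
      refine h1.trans (tsum_congr fun i => ?_)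
      by_cases hi : y ∈ Qb i
      · rw [indicator_of_mem (show i ∈ {i : ℕ | y ∈ Qb i} from hi), indicator_of_mem hi]
      · rw [indicator_of_notMem (show i ∉ {i : ℕ | y ∈ Qb i} from hi), indicator_of_notMem hi]
    obtain ⟨t, ht, htI, htR⟩ := cantor hg le_rfl hC21 hUb hN0 hΛ hMC hr0 (fun k => min_le_right _ _) hdiv
      (ι := ι') (fun i => {t | mk i0 j0 t y ∈ B i.1}) (fun i => δ i.1) (fun i => hδ0 i.1)
      (fun i u hu v hv => by
        have h1 := coord_le (mk i0 j0 u y) (mk i0 j0 v y) (i0, j0)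
        rw [mk_self, mk_self] at h1
        exact h1.trans (hδdist i.1 _ hu _ hv)) hρ0 hρ1 hρ (fun i => hδρ i.1)
      (by rw [hSy]; exact hlt.le)
    have hW : mk i0 j0 t y ∈ WW m d θ ψ :=
      mem_WW i0 j0 θ ψ hψ hψpos M J hM2 hJ0 hMJ r (fun k => min_le_left _ _) y hyc t ht htR
    obtain ⟨i, hi⟩ := mem_iUnion.1 (hBW hW)
    exact htI ⟨i, hQin i t y hi⟩ hi
  have h1 : ENNReal.ofReal F2 ≤ ∫⁻ y, S y ∂(cub (Ax i0 j0)) := by
    have h2 := lintegral_mono_ae hae
    rwa [lintegral_const, measure_univ, mul_one] at h2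
  have h2 := (ENNReal.ofReal_le_ofReal_iff (by positivity)).1 (h1.trans hSint)
  rw [hF2] at h2
  linarith

end Pool.Agent.Y907.HM
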