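import Pool.Agent.Y907.HM.Win2
import Pool.Agent.Y907.HM.Grow

set_option autoImplicit false
open MeasureTheory Set Filter
open scoped ENNReal Topology

namespace Pool.Agent.Y907.HM

/-- measure of the set where a linear function is close to an integer -/
theorem vol_lin {n : ℤ} (hn : n ≠ 0) (β : ℝ) {η a b : ℝ} (hη0 : 0 ≤ η) (hη : η ≤ 1 / 2)
    (hab : a ≤ b) :
    volume {t | t ∈ Icc a b ∧ ∃ p : ℤ, |(n:ℝ) * t + β - p| ≤ η} ≤
      ENNReal.ofReal (2 * η * (b - a) + 4 * η / |(n:ℝ)|) := by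
  have hn' : (n:ℝ) ≠ 0 := by exact_mod_cast hn
  have hnpos : 0 < |(n:ℝ)| := abs_pos.2 hn'
  set lo : ℝ := min (n * a) (n * b) + β - η with hlo
  set hi : ℝ := max (n * a) (n * b) + β + η with hhi
  have hhl : hi - lo = |(n:ℝ)| * (b - a) + 2 * η := by
    have h1 : max ((n:ℝ) * a) (n * b) - min (n * a) (n * b) = |(n:ℝ) * b - n * a| := by
      rw [max_sub_min_eq_abs]
    have h2 : |(n:ℝ) * b - n * a| = |(n:ℝ)| * (b - a) := by
      rw [← mul_sub, abs_mul, abs_of_nonneg (sub_nonneg.2 hab)]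
    rw [hhi, hlo]
    linarith
  have hsub : {t | t ∈ Icc a b ∧ ∃ p : ℤ, |(n:ℝ) * t + β - p| ≤ η} ⊆
      ⋃ p ∈ Finset.Icc ⌈lo⌉ ⌊hi⌋, Metric.closedBall (((p:ℝ) - β) / n) (η / |(n:ℝ)|) := by
    rintro t ⟨ht, p, hp⟩
    have hp' := abs_le.1 hp
    have hnt1 : min ((n:ℝ) * a) (n * b) ≤ n * t := by
      rcases le_or_gt 0 (n:ℝ) with h | h
      · exact (min_le_left _ _).trans (mul_le_mul_of_nonneg_left ht.1 h)
      · exact (min_le_right _ _).trans (mul_le_mul_of_nonpos_left ht.2 h.le)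
    have hnt2 : (n:ℝ) * t ≤ max ((n:ℝ) * a) (n * b) := by
      rcases le_or_gt 0 (n:ℝ) with h | h
      · exact (mul_le_mul_of_nonneg_left ht.2 h).trans (le_max_right _ _)
      · exact (mul_le_mul_of_nonpos_left ht.1 h.le).trans (le_max_left _ _)
    simp only [mem_iUnion, Finset.mem_Icc, Metric.mem_closedBall, Real.dist_eq, exists_prop]
    refine ⟨p, ⟨Int.ceil_le.2 ?_, Int.le_floor.2 ?_⟩, ?_⟩
    · rw [hlo]; linarith [hp'.2]
    · rw [hhi]; linarith [hp'.1]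
    · rw [le_div_iff₀ hnpos, ← abs_mul]
      have : (t - ((p:ℝ) - β) / n) * n = (n:ℝ) * t + β - p := by field_simp; ring
      rw [this]
      exact hp
  refine (measure_mono hsub).trans ((measure_biUnion_finset_le _ _).trans ?_)
  simp only [Real.volume_closedBall]
  rw [Finset.sum_const, nsmul_eq_mul, ← ENNReal.ofReal_natCast, ← ENNReal.ofReal_mul (by positivity)]
  apply ENNReal.ofReal_le_ofReal
  have hcard : ((Finset.Icc ⌈lo⌉ ⌊hi⌋).card : ℝ) ≤ |(n:ℝ)| * (b - a) + 2 := by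
    rw [Int.card_Icc]
    have h1 : (⌊hi⌋ : ℝ) ≤ hi := Int.floor_le hi
    have h2 : lo ≤ (⌈lo⌉ : ℝ) := Int.le_ceil lo
    have h3 : (0:ℝ) ≤ |(n:ℝ)| * (b - a) := mul_nonneg hnpos.le (by linarith)
    rcases le_or_gt 0 (⌊hi⌋ + 1 - ⌈lo⌉) with h | h
    · have h4 : (((⌊hi⌋ + 1 - ⌈lo⌉).toNat : ℤ) : ℝ) = ((⌊hi⌋ + 1 - ⌈lo⌉ : ℤ) : ℝ) := by
        rw [Int.toNat_of_nonneg h]
      have h5 : (((⌊hi⌋ + 1 - ⌈lo⌉).toNat : ℕ) : ℝ) = ((⌊hi⌋ + 1 - ⌈lo⌉ : ℤ) : ℝ) := by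
        rw [← h4]; norm_cast
      rw [h5]
      push_cast
      linarith
    · rw [Int.toNat_of_nonpos h.le]
      simp
      linarith
  calc ((Finset.Icc ⌈lo⌉ ⌊hi⌋).card : ℝ) * (2 * (η / |(n:ℝ)|))
      ≤ (|(n:ℝ)| * (b - a) + 2) * (2 * (η / |(n:ℝ)|)) := by gcongr
    _ = 2 * η * (b - a) + 4 * η / |(n:ℝ)| := by
        field_simp
        ring

variable {κ : Type} [Fintype κ] [DecidableEq κ]

/-- resonant points -/
def Rs (j0 : κ) (θ : ℝ) (z : κ → ℝ) (A B : ℕ) : Set ℝ :=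
  {s | ∃ q : κ → ℤ, (A : ℤ) ≤ q j0 ∧ (∀ j, |q j| ≤ (B:ℤ)) ∧
    ∃ p : ℤ, ∑ j, (q j : ℝ) * Function.update z j0 s j = p + θ}

theorem sum_upd (j0 : κ) (z : κ → ℝ) (q : κ → ℤ) (t : ℝ) :
    ∑ j, (q j : ℝ) * Function.update z j0 t j =
      (q j0 : ℝ) * t + ∑ j ∈ Finset.univ.erase j0, (q j : ℝ) * z j := by
  rw [← Finset.add_sum_erase _ _ (Finset.mem_univ j0), Function.update_self]
  congr 1
  refine Finset.sum_congr rfl fun j hj => ?_
  rw [Function.update_of_ne (Finset.ne_of_mem_erase hj)]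

/-- number of resonant points -/
theorem Rs_card (j0 : κ) (θ : ℝ) (z : κ → ℝ) (A B : ℕ) (hA : 0 < A) {a b : ℝ} (hab : a ≤ b) :
    (Rs j0 θ z A B ∩ Icc a b).Finite ∧
      ((Rs j0 θ z A B ∩ Icc a b).ncard : ℝ) ≤ (2 * B + 1) ^ (Fintype.card κ) * (B * (b - a) + 1) := by
  classical
  set S : Finset (κ → ℤ) := (Fintype.piFinset fun _ : κ => Finset.Icc (-(B:ℤ)) B).filter
    (fun q => (A:ℤ) ≤ q j0) with hS
  let β : (κ → ℤ) → ℝ := fun q => ∑ j ∈ Finset.univ.erase j0, (q j : ℝ) * z j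
  let P : (κ → ℤ) → Finset ℤ := fun q =>
    Finset.Icc ⌈(q j0 : ℝ) * a + β q - θ⌉ ⌊(q j0 : ℝ) * b + β q - θ⌋
  let T : Finset ℝ := S.biUnion fun q => (P q).image fun p : ℤ => ((p:ℝ) + θ - β q) / (q j0 : ℝ)
  have hsub : Rs j0 θ z A B ∩ Icc a b ⊆ (T : Set ℝ) := by
    rintro s ⟨⟨q, hqA, hqB, p, hp⟩, hs⟩
    rw [sum_upd] at hp
    have hq0 : (0:ℝ) < q j0 := by
      have : (0:ℤ) < q j0 := lt_of_lt_of_le (by exact_mod_cast hA) hqA
      exact_mod_cast this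
    simp only [T, Finset.coe_biUnion, Finset.coe_image, mem_iUnion, mem_image, Finset.mem_coe,
      exists_prop]
    refine ⟨q, ?_, p, ?_, ?_⟩
    · rw [hS, Finset.mem_filter, Fintype.mem_piFinset]
      exact ⟨fun j => Finset.mem_Icc.2 (abs_le.1 (hqB j)), hqA⟩
    · rw [Finset.mem_Icc]
      have h1 : (q j0 : ℝ) * a ≤ q j0 * s := mul_le_mul_of_nonneg_left hs.1 hq0.le
      have h2 : (q j0 : ℝ) * s ≤ q j0 * b := mul_le_mul_of_nonneg_left hs.2 hq0.le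
      constructor
      · apply Int.ceil_le.2
        simp only [β]
        linarith
      · apply Int.le_floor.2
        simp only [β]
        linarith
    · simp only [β]
      rw [div_eq_iff hq0.ne']
      linarith
  have hfin : (Rs j0 θ z A B ∩ Icc a b).Finite := (Finset.finite_toSet T).subset hsub
  refine ⟨hfin, ?_⟩
  have h1 : (Rs j0 θ z A B ∩ Icc a b).ncard ≤ T.card := by
    have := Set.ncard_le_ncard hsub (Finset.finite_toSet T)
    rwa [Set.ncard_coe_finset] at this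
  have h2 : ∀ q ∈ S, (((P q).image fun p : ℤ => ((p:ℝ) + θ - β q) / (q j0 : ℝ)).card : ℝ) ≤
      B * (b - a) + 1 := by
    intro q hq
    rw [hS, Finset.mem_filter, Fintype.mem_piFinset] at hq
    have hqB : (q j0 : ℝ) ≤ B := by exact_mod_cast (Finset.mem_Icc.1 (hq.1 j0)).2
    refine le_trans ((Nat.cast_le (α := ℝ)).2 Finset.card_image_le) ?_
    simp only [P]
    rw [Int.card_Icc]
    set lo := (q j0 : ℝ) * a + β q - θ
    set hi := (q j0 : ℝ) * b + β q - θ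
    have h1 : (⌊hi⌋ : ℝ) ≤ hi := Int.floor_le hi
    have h2 : lo ≤ (⌈lo⌉ : ℝ) := Int.le_ceil lo
    have h3 : hi - lo ≤ B * (b - a) := by
      have : hi - lo = (q j0 : ℝ) * (b - a) := by simp only [hi, lo]; ring
      rw [this]
      exact mul_le_mul_of_nonneg_right hqB (by linarith)
    have h0 : (0:ℝ) ≤ B * (b - a) := mul_nonneg (by positivity) (by linarith)
    rcases le_or_gt 0 (⌊hi⌋ + 1 - ⌈lo⌉) with h | h
    · have h5 : (((⌊hi⌋ + 1 - ⌈lo⌉).toNat : ℕ) : ℝ) = ((⌊hi⌋ + 1 - ⌈lo⌉ : ℤ) : ℝ) := by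
        have h4 : (((⌊hi⌋ + 1 - ⌈lo⌉).toNat : ℤ) : ℝ) = ((⌊hi⌋ + 1 - ⌈lo⌉ : ℤ) : ℝ) := by
          rw [Int.toNat_of_nonneg h]
        rw [← h4]; norm_cast
      rw [h5]
      push_cast
      linarith
    · rw [Int.toNat_of_nonpos h.le]
      simp
      linarith
  have h3 : (S.card : ℝ) ≤ (2 * B + 1) ^ (Fintype.card κ) := by
    have h4 : S.card ≤ (Fintype.piFinset fun _ : κ => Finset.Icc (-(B:ℤ)) B).card :=
      Finset.card_filter_le _ _
    rw [Fintype.card_piFinset] at h4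
    simp only [Int.card_Icc, Finset.prod_const, Finset.card_univ] at h4
    have h5 : ((B:ℤ) + 1 - -(B:ℤ)).toNat = 2 * B + 1 := by omega
    rw [h5] at h4
    exact_mod_cast h4
  have h0 : (0:ℝ) ≤ B * (b - a) + 1 := add_nonneg (mul_nonneg (by positivity) (by linarith)) zero_le_one
  calc ((Rs j0 θ z A B ∩ Icc a b).ncard : ℝ) ≤ T.card := by exact_mod_cast h1
    _ ≤ ∑ q ∈ S, (((P q).image fun p : ℤ => ((p:ℝ) + θ - β q) / (q j0 : ℝ)).card : ℝ) := by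
        exact_mod_cast Finset.card_biUnion_le
    _ ≤ ∑ q ∈ S, ((B:ℝ) * (b - a) + 1) := Finset.sum_le_sum h2
    _ = S.card * (B * (b - a) + 1) := by rw [Finset.sum_const, nsmul_eq_mul]
    _ ≤ _ := by gcongr

end Pool.Agent.Y907.HM
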