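import Pool.Agent.Y907.HM.Ub

set_option autoImplicit false
open MeasureTheory Set Filter
open scoped ENNReal Topology

namespace Pool.Agent.Y907.HM

theorem inv_sum (Q : ℕ) :
    ∑ n ∈ (Finset.Icc (-(Q:ℤ)) Q).filter (fun n => n ≠ 0), 1 / |(n:ℝ)| ≤
      2 * ∑ i ∈ Finset.range Q, 1 / ((i:ℝ) + 1) := by
  classical
  have hsub : (Finset.Icc (-(Q:ℤ)) Q).filter (fun n => n ≠ 0) ⊆
      ((Finset.range Q).image fun i : ℕ => ((i:ℤ) + 1)) ∪
      ((Finset.range Q).image fun i : ℕ => -((i:ℤ) + 1)) := by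
    intro n hn
    rw [Finset.mem_filter, Finset.mem_Icc] at hn
    rw [Finset.mem_union, Finset.mem_image, Finset.mem_image]
    rcases lt_or_gt_of_ne hn.2 with h | h
    · right
      refine ⟨(-n - 1).toNat, ?_, ?_⟩
      · rw [Finset.mem_range]; omega
      · have : (((-n - 1).toNat : ℕ) : ℤ) = -n - 1 := Int.toNat_of_nonneg (by omega)
        rw [this]; ring
    · left
      refine ⟨(n - 1).toNat, ?_, ?_⟩
      · rw [Finset.mem_range]; omega
      · have : (((n - 1).toNat : ℕ) : ℤ) = n - 1 := Int.toNat_of_nonneg (by omega)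
        rw [this]; ring
  have h1 : ∑ n ∈ ((Finset.range Q).image fun i : ℕ => ((i:ℤ) + 1)), 1 / |(n:ℝ)| =
      ∑ i ∈ Finset.range Q, 1 / ((i:ℝ) + 1) := by
    rw [Finset.sum_image (fun a _ b _ h => by simpa using h)]
    refine Finset.sum_congr rfl fun i _ => ?_
    push_cast
    rw [abs_of_nonneg (by positivity)]
  have h2 : ∑ n ∈ ((Finset.range Q).image fun i : ℕ => -((i:ℤ) + 1)), 1 / |(n:ℝ)| =
      ∑ i ∈ Finset.range Q, 1 / ((i:ℝ) + 1) := by
    rw [Finset.sum_image (fun a _ b _ h => by simpa using h)]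
    refine Finset.sum_congr rfl fun i _ => ?_
    push_cast
    rw [show (-((i:ℝ) + 1)) = -((i:ℝ) + 1) from rfl, abs_neg, abs_of_nonneg (by positivity)]
  calc ∑ n ∈ (Finset.Icc (-(Q:ℤ)) Q).filter (fun n => n ≠ 0), 1 / |(n:ℝ)|
      ≤ ∑ n ∈ ((Finset.range Q).image fun i : ℕ => ((i:ℤ) + 1)) ∪
        ((Finset.range Q).image fun i : ℕ => -((i:ℤ) + 1)), 1 / |(n:ℝ)| :=
        Finset.sum_le_sum_of_subset_of_nonneg hsub (fun n _ _ => by positivity)
    _ ≤ ∑ n ∈ ((Finset.range Q).image fun i : ℕ => ((i:ℤ) + 1)), 1 / |(n:ℝ)| +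
        ∑ n ∈ ((Finset.range Q).image fun i : ℕ => -((i:ℤ) + 1)), 1 / |(n:ℝ)| := by
        rw [← Finset.sum_union_inter]
        have : 0 ≤ ∑ n ∈ ((Finset.range Q).image fun i : ℕ => ((i:ℤ) + 1)) ∩
          ((Finset.range Q).image fun i : ℕ => -((i:ℤ) + 1)), 1 / |(n:ℝ)| :=
          Finset.sum_nonneg (fun n _ => by positivity)
        linarith
    _ = _ := by rw [h1, h2]; ring

variable {κ : Type} [Fintype κ] [DecidableEq κ]

/-- sum over the box of a function of one coordinate -/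
theorem box_sum (j0 : κ) (Q : ℕ) (f : ℤ → ℝ) :
    ∑ q ∈ (Fintype.piFinset fun _ : κ => Finset.Icc (-(Q:ℤ)) Q).filter (fun q => q j0 ≠ 0),
      f (q j0) = (2 * Q + 1) ^ (Fintype.card κ - 1) *
      ∑ n ∈ (Finset.Icc (-(Q:ℤ)) Q).filter (fun n => n ≠ 0), f n := by
  classical
  rw [← Finset.sum_fiberwise_of_maps_to (g := fun q : κ → ℤ => q j0)
    (t := (Finset.Icc (-(Q:ℤ)) Q).filter (fun n => n ≠ 0))]
  · rw [Finset.mul_sum]
    refine Finset.sum_congr rfl fun n hn => ?_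
    rw [Finset.mem_filter] at hn
    have h1 : (((Fintype.piFinset fun _ : κ => Finset.Icc (-(Q:ℤ)) Q).filter
        (fun q => q j0 ≠ 0)).filter (fun q => q j0 = n)) =
        (Fintype.piFinset fun _ : κ => Finset.Icc (-(Q:ℤ)) Q).filter (fun q => q j0 = n) := by
      rw [Finset.filter_filter]
      refine Finset.filter_congr fun q _ => ?_
      constructor
      · exact fun h => h.2
      · exact fun h => ⟨by rw [h]; exact hn.2, h⟩
    rw [h1, Finset.sum_congr rfl (g := fun _ => f n) (fun q hq => by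
      rw [(Finset.mem_filter.1 hq).2]), Finset.sum_const,
      Fintype.card_filter_piFinset_const_eq_of_mem _ _ hn.1, nsmul_eq_mul, Int.card_Icc]
    have h5 : ((Q:ℤ) + 1 - -(Q:ℤ)).toNat = 2 * Q + 1 := by omega
    rw [h5]
    push_cast
    ring
  · intro q hq
    rw [Finset.mem_filter, Fintype.mem_piFinset] at hq
    rw [Finset.mem_filter]
    exact ⟨hq.1 j0, hq.2⟩

/-- ubiquity on good slices -/
theorem ubi_slice (j0 : κ) (θ : ℝ) (z : κ → ℝ) (M J : ℕ) (hM : 2 ≤ M) (hJ0 : 0 < J) {c : ℝ}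
    (hc : 0 < c) (hc8 : 8 * 3 ^ (Fintype.card κ) * c ≤ 1) (hJ : 1 < J * c)
    (hZ : ∃ k1 : ℕ, ∀ k, k1 ≤ k → ∀ q : κ → ℤ, q ≠ 0 → q j0 = 0 →
      (∀ j, |q j| ≤ ((M ^ k : ℕ) : ℤ)) → ∀ p : ℤ,
      c / ((M:ℝ) ^ k) ^ (Fintype.card κ) < |∑ j, (q j : ℝ) * z j - p|) :
    Ubi (fun k => Rs j0 θ z (3 * J * M ^ k) (9 * J * M ^ k))
      (fun k => ((M:ℝ) ^ k) ^ (Fintype.card κ + 1)) 1 ((19 * J) ^ (Fintype.card κ) * (10 * J)) := by
  classical
  have hM1 : (1:ℝ) < M := by exact_mod_cast (by omega : 1 < M)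
  have hMt : Tendsto (fun k : ℕ => M ^ k) atTop atTop :=
    tendsto_pow_atTop_atTop_of_one_lt (by omega : 1 < M)
  have hcard : 1 ≤ Fintype.card κ := Fintype.card_pos_iff.2 ⟨j0⟩
  have hc1 : c ≤ 1 / 8 := by
    have h3 : (1:ℝ) ≤ 3 ^ (Fintype.card κ) := one_le_pow₀ (by norm_num)
    nlinarith
  obtain ⟨k1, hk1⟩ := hZ
  constructor
  · intro η hη
    have hces : Tendsto (fun n : ℕ => (n⁻¹ : ℝ) * ∑ i ∈ Finset.range n, 1 / ((i:ℝ) + 1)) atTop (𝓝 0) :=
      Filter.Tendsto.cesaro tendsto_one_div_add_atTop_nhds_zero_nat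
    have hces2 := (hces.comp hMt).eventually_le_const (show (0:ℝ) < η / 4 by positivity)
    obtain ⟨k2, hk2⟩ := eventually_atTop.1 hces2
    refine ⟨max k1 k2, fun k hk a b ha hb hab => ?_⟩
    have hkk1 := hk1 k (le_trans (le_max_left _ _) hk)
    have hkk2 := hk2 k (le_trans (le_max_right _ _) hk)
    simp only [Function.comp] at hkk2
    set Q : ℕ := M ^ k with hQ
    have hQ1 : 1 ≤ Q := Nat.one_le_pow _ _ (by omega)
    have hQR : ((M:ℝ) ^ k) = (Q:ℝ) := by rw [hQ]; push_cast; rfl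
    have hQ1R : (1:ℝ) ≤ Q := by exact_mod_cast hQ1
    have hQ0 : (0:ℝ) < Q := by linarith
    simp only [hQR] at hkk1 ⊢
    set m := Fintype.card κ with hm
    have hQm : (1:ℝ) ≤ (Q:ℝ) ^ m := one_le_pow₀ hQ1R
    set e : ℝ := c / (Q:ℝ) ^ m with he
    have he0 : 0 < e := by positivity
    have he1 : e ≤ 1 / 8 := by
      rw [he]
      exact (div_le_self hc.le hQm).trans hc1
    let Bd : Set ℝ := {t | t ∈ Icc a b ∧ ∃ q : κ → ℤ, q ≠ 0 ∧ (∀ j, |q j| ≤ (Q:ℤ)) ∧
      ∃ p : ℤ, |∑ j, (q j : ℝ) * Function.update z j0 t j - p| ≤ e}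
    have hgood : Icc a b \ Bd ⊆ {t | t ∈ Icc a b ∧ ∃ x ∈ Rs j0 θ z (3 * J * Q) (9 * J * Q),
        |t - x| ≤ 1 / (Q:ℝ) ^ (m + 1)} := by
      rintro t ⟨htI, htB⟩
      refine ⟨htI, ?_⟩
      obtain ⟨q, hq1, hq2, p, hp⟩ := cover (Function.update z j0 t) j0 Q (δ := e / 2) (c := c)
        (by positivity) (by linarith) (by
          intro q hq0 hqQ
          by_contra hcon
          push Not at hcon
          apply htB
          refine ⟨htI, q, hq0, hqQ, round (∑ j, (q j : ℝ) * Function.update z j0 t j), ?_⟩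
          have h1 : ‖ph (Function.update z j0 t) q‖ = |∑ j, (q j : ℝ) * Function.update z j0 t j -
            round (∑ j, (q j : ℝ) * Function.update z j0 t j)| := UnitAddCircle.norm_eq
          rw [← h1]
          linarith)
        (by rw [he, ← hm]; field_simp; rfl) J hJ hc.le θ
      have hqpos : (0:ℝ) < q j0 := by
        have : (0:ℤ) < q j0 := lt_of_lt_of_le (by positivity) hq1
        exact_mod_cast this
      have hqge : (3 * J * Q : ℝ) ≤ q j0 := by
        have : ((3 * J * Q : ℕ) : ℝ) ≤ ((q j0 : ℤ) : ℝ) := by exact_mod_cast hq1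
        push_cast at this
        exact this
      set β := ∑ j ∈ Finset.univ.erase j0, (q j : ℝ) * z j with hβ
      refine ⟨(p + θ - β) / q j0, ⟨q, by exact_mod_cast hq1, by exact_mod_cast hq2, p, ?_⟩, ?_⟩
      · rw [sum_upd, ← hβ]
        field_simp
        ring
      · rw [sum_upd, ← hβ] at hp
        have h1 : t - (p + θ - β) / q j0 = (q j0 * t + β - p - θ) / q j0 := by
          field_simp
          ring
        rw [h1, abs_div, abs_of_pos hqpos, div_le_iff₀ hqpos]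
        refine hp.trans ?_
        have hJ0' : (0:ℝ) < J := by exact_mod_cast hJ0
        calc ((3 * J : ℕ) : ℝ) * (e / 2) = (3 * J) * (c / 2 / (Q:ℝ) ^ m) := by
              rw [he]; push_cast; ring
          _ ≤ (3 * J) * (1 / (Q:ℝ) ^ m) := by gcongr; linarith
          _ = 1 / (Q:ℝ) ^ (m + 1) * (3 * J * Q) := by rw [pow_succ]; field_simp
          _ ≤ 1 / (Q:ℝ) ^ (m + 1) * q j0 := by gcongr
    have hBd : volume Bd ≤ ENNReal.ofReal ((b - a) / 2) := by
      set S := (Fintype.piFinset fun _ : κ => Finset.Icc (-(Q:ℤ)) Q).filter (fun q => q j0 ≠ 0)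
        with hS
      have hsub : Bd ⊆ ⋃ q ∈ S, {t | t ∈ Icc a b ∧ ∃ p : ℤ,
          |((q j0 : ℤ) : ℝ) * t + (∑ j ∈ Finset.univ.erase j0, (q j : ℝ) * z j) - p| ≤ e} := by
        rintro t ⟨htI, q, hq0, hqQ, p, hp⟩
        simp only [mem_iUnion, exists_prop]
        refine ⟨q, ?_, htI, p, by rwa [sum_upd] at hp⟩
        rw [hS, Finset.mem_filter, Fintype.mem_piFinset]
        refine ⟨fun j => Finset.mem_Icc.2 (abs_le.1 (hqQ j)), ?_⟩
        intro h0
        have h1 := hkk1 q hq0 h0 hqQ p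
        have h2 : ∑ j, (q j : ℝ) * z j = ∑ j, (q j : ℝ) * Function.update z j0 t j := by
          refine Finset.sum_congr rfl fun j _ => ?_
          by_cases hj : j = j0
          · subst hj; rw [h0]; simp
          · rw [Function.update_of_ne hj]
        rw [h2] at h1
        linarith
      refine (measure_mono hsub).trans ((measure_biUnion_finset_le _ _).trans ?_)
      have hterm : ∀ q ∈ S, volume {t | t ∈ Icc a b ∧ ∃ p : ℤ,
          |((q j0 : ℤ) : ℝ) * t + (∑ j ∈ Finset.univ.erase j0, (q j : ℝ) * z j) - p| ≤ e} ≤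
          ENNReal.ofReal (2 * e * (b - a) + 4 * e / |((q j0 : ℤ) : ℝ)|) := by
        intro q hq
        rw [hS, Finset.mem_filter] at hq
        exact vol_lin hq.2 _ he0.le (by linarith) (by linarith)
      refine (Finset.sum_le_sum hterm).trans ?_
      rw [← ENNReal.ofReal_sum_of_nonneg (fun q _ => by
        have : 0 ≤ b - a := by linarith
        positivity)]
      apply ENNReal.ofReal_le_ofReal
      have hbs := box_sum j0 Q (fun n : ℤ => 2 * e * (b - a) + 4 * e / |(n:ℝ)|)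
      simp only [← hS] at hbs
      rw [hbs, Finset.sum_add_distrib, Finset.sum_const, nsmul_eq_mul, mul_add]
      have hcardf : (((Finset.Icc (-(Q:ℤ)) Q).filter (fun n => n ≠ 0)).card : ℝ) ≤ 2 * Q + 1 := by
        have h1 : ((Finset.Icc (-(Q:ℤ)) Q).filter (fun n => n ≠ 0)).card ≤
          (Finset.Icc (-(Q:ℤ)) Q).card := Finset.card_filter_le _ _
        rw [Int.card_Icc] at h1
        have h5 : ((Q:ℤ) + 1 - -(Q:ℤ)).toNat = 2 * Q + 1 := by omega
        rw [h5] at h1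
        exact_mod_cast h1
      have hQ3 : (2 * (Q:ℝ) + 1) ≤ 3 * Q := by linarith
      have hba : 0 ≤ b - a := by linarith
      have hp1 : (2 * (Q:ℝ) + 1) ^ (m - 1) * ((((Finset.Icc (-(Q:ℤ)) Q).filter
          (fun n => n ≠ 0)).card : ℝ) * (2 * e * (b - a))) ≤ (b - a) / 4 := by
        calc (2 * (Q:ℝ) + 1) ^ (m - 1) * ((((Finset.Icc (-(Q:ℤ)) Q).filter
            (fun n => n ≠ 0)).card : ℝ) * (2 * e * (b - a)))
            ≤ (3 * (Q:ℝ)) ^ (m - 1) * ((3 * Q) * (2 * e * (b - a))) := by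
              gcongr
              exact hcardf.trans hQ3
          _ = (3 * (Q:ℝ)) ^ (m - 1 + 1) * (2 * e * (b - a)) := by rw [pow_succ]; ring
          _ = (3 ^ m * c) * (2 * (b - a)) := by
              rw [Nat.sub_add_cancel hcard, mul_pow, he]
              field_simp
          _ ≤ (1 / 8) * (2 * (b - a)) := by
              gcongr
              linarith
          _ = (b - a) / 4 := by ring
      have hp2 : (2 * (Q:ℝ) + 1) ^ (m - 1) * ∑ n ∈ (Finset.Icc (-(Q:ℤ)) Q).filter (fun n => n ≠ 0),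
          4 * e / |(n:ℝ)| ≤ η / 4 := by
        have h1 : ∑ n ∈ (Finset.Icc (-(Q:ℤ)) Q).filter (fun n => n ≠ 0), 4 * e / |(n:ℝ)| =
          4 * e * ∑ n ∈ (Finset.Icc (-(Q:ℤ)) Q).filter (fun n => n ≠ 0), 1 / |(n:ℝ)| := by
          rw [Finset.mul_sum]
          refine Finset.sum_congr rfl fun n _ => by ring
        rw [h1]
        have hH0 : 0 ≤ ∑ i ∈ Finset.range Q, 1 / ((i:ℝ) + 1) :=
          Finset.sum_nonneg fun i _ => by positivity
        calc (2 * (Q:ℝ) + 1) ^ (m - 1) * (4 * e *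
            ∑ n ∈ (Finset.Icc (-(Q:ℤ)) Q).filter (fun n => n ≠ 0), 1 / |(n:ℝ)|)
            ≤ (3 * (Q:ℝ)) ^ (m - 1) * (4 * e * (2 * ∑ i ∈ Finset.range Q, 1 / ((i:ℝ) + 1))) := by
              gcongr
              exact inv_sum Q
          _ = ((3 * (Q:ℝ)) ^ (m - 1) * (3 * Q)) * e * (8 / 3) *
              ((Q:ℝ)⁻¹ * ∑ i ∈ Finset.range Q, 1 / ((i:ℝ) + 1)) := by
              field_simp
              ring
          _ = (3 ^ m * c) * (8 / 3) *
              ((Q:ℝ)⁻¹ * ∑ i ∈ Finset.range Q, 1 / ((i:ℝ) + 1)) := by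
              rw [← pow_succ, Nat.sub_add_cancel hcard, mul_pow, he]
              field_simp
          _ ≤ (1 / 8) * (8 / 3) * (η / 4) := by
              gcongr
              linarith
          _ ≤ η / 4 := by linarith
      linarith
    calc ENNReal.ofReal ((b - a) / 2) = ENNReal.ofReal (b - a) - ENNReal.ofReal ((b - a) / 2) := by
          rw [← ENNReal.ofReal_sub _ (by linarith)]
          congr 1
          ring
      _ ≤ volume (Icc a b) - volume Bd := by
          rw [Real.volume_Icc]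
          exact tsub_le_tsub_left hBd _
      _ ≤ volume (Icc a b \ Bd) := le_measure_sdiff
      _ ≤ _ := measure_mono hgood
  · intro η hη
    have h1 := (tendsto_natCast_atTop_atTop (R := ℝ)).comp hMt
    obtain ⟨k2, hk2⟩ := eventually_atTop.1 (h1.eventually_ge_atTop (1 / η))
    refine ⟨k2, fun k hk a b ha hb hab => ?_⟩
    have hkk2 := hk2 k hk
    simp only [Function.comp] at hkk2
    set Q : ℕ := M ^ k with hQ
    have hQ1 : 1 ≤ Q := Nat.one_le_pow _ _ (by omega)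
    have hQR : ((M:ℝ) ^ k) = (Q:ℝ) := by rw [hQ]; push_cast; rfl
    have hQ1R : (1:ℝ) ≤ Q := by exact_mod_cast hQ1
    have hQ0 : (0:ℝ) < Q := by linarith
    simp only [hQR]
    have hJ1 : (1:ℝ) ≤ J := by exact_mod_cast hJ0
    obtain ⟨hf, hcc⟩ := Rs_card j0 θ z (3 * J * Q) (9 * J * Q) (by positivity) (show a ≤ b by linarith)
    refine ⟨hf, hcc.trans ?_⟩
    have hQη : 1 ≤ (Q:ℝ) * (b - a) := by
      rw [div_le_iff₀ hη] at hkk2
      calc 1 ≤ (Q:ℝ) * η := hkk2
        _ ≤ Q * (b - a) := by gcongr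
    have h2 : ((9 * J * Q : ℕ) : ℝ) * (b - a) + 1 ≤ 10 * J * (Q * (b - a)) := by
      push_cast
      nlinarith
    have h3 : (2 * ((9 * J * Q : ℕ) : ℝ) + 1) ≤ 19 * J * Q := by
      push_cast
      nlinarith
    have h4 : 0 ≤ ((9 * J * Q : ℕ) : ℝ) * (b - a) + 1 := by
      have : 0 ≤ b - a := by linarith
      positivity
    calc (2 * ((9 * J * Q : ℕ) : ℝ) + 1) ^ (Fintype.card κ) * (((9 * J * Q : ℕ) : ℝ) * (b - a) + 1)
        ≤ (19 * J * Q) ^ (Fintype.card κ) * (10 * J * (Q * (b - a))) := by gcongr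
      _ = _ := by
        rw [mul_pow, pow_succ]; ring

end Pool.Agent.Y907.HM
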