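import Mathlib

set_option autoImplicit false
open MeasureTheory Set Filter
open scoped ENNReal Topology

namespace Pool.Agent.Y907.HM

/-- hypotheses on a gauge function -/
structure Gauge (g : ℝ → ℝ) (σ Cg : ℝ) : Prop where
  pos : ∀ x, 0 < x → 0 < g x
  mono : ∀ x y, 0 < x → x ≤ y → g x ≤ g y
  dbl : ∀ x y, 0 < x → x ≤ y → g y ≤ Cg * (y / x) ^ σ * g x
  s0 : 0 < σ
  s1 : σ < 1

theorem Gauge.Cg_pos {g : ℝ → ℝ} {σ Cg : ℝ} (h : Gauge g σ Cg) : 0 < Cg := by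
  have h1 := h.dbl 1 1 one_pos le_rfl
  have h2 := h.pos 1 one_pos
  simp at h1
  nlinarith

theorem Gauge.small {g : ℝ → ℝ} {σ Cg : ℝ} (h : Gauge g σ Cg) {x y : ℝ} (hx : 0 < x)
    (hxy : x ≤ y) : x * g y ≤ Cg * y * g x := by
  have hy : 0 < y := hx.trans_le hxy
  have h1 := h.dbl x y hx hxy
  have h2 : (y / x) ^ σ ≤ y / x := by
    have h3 : 1 ≤ y / x := by rwa [le_div_iff₀ hx, one_mul]
    calc (y / x) ^ σ ≤ (y / x) ^ (1:ℝ) := Real.rpow_le_rpow_of_exponent_le h3 h.s1.le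
      _ = y / x := Real.rpow_one _
  have h4 : g y ≤ Cg * (y / x) * g x :=
    h1.trans (by
      have := h.Cg_pos
      have := h.pos x hx
      gcongr)
  calc x * g y ≤ x * (Cg * (y / x) * g x) := by gcongr
    _ = Cg * y * g x := by field_simp

theorem Gauge.one {g : ℝ → ℝ} {σ Cg : ℝ} (h : Gauge g σ Cg) {x : ℝ} (hx : 0 < x)
    (hx1 : x ≤ 1) : x ≤ x ^ (1 - σ) * (Cg / g 1) * g x := by
  have h1 := h.dbl x 1 hx hx1
  have h2 := h.pos 1 one_pos
  have h3 : x ^ σ * g 1 ≤ Cg * g x := by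
    have hxs : 0 < x ^ σ := Real.rpow_pos_of_pos hx _
    have h4 : (1 / x) ^ σ = 1 / x ^ σ := by
      rw [Real.div_rpow zero_le_one hx.le, Real.one_rpow]
    rw [h4] at h1
    calc x ^ σ * g 1 ≤ x ^ σ * (Cg * (1 / x ^ σ) * g x) := by gcongr
      _ = Cg * g x := by field_simp
  have h5 : x = x ^ (1 - σ) * x ^ σ := by
    rw [← Real.rpow_add hx]; simp
  have h6 : 0 < x ^ (1 - σ) := Real.rpow_pos_of_pos hx _
  calc x = x ^ (1 - σ) * x ^ σ := h5
    _ ≤ x ^ (1 - σ) * ((Cg / g 1) * g x) := by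
        gcongr
        rw [div_mul_eq_mul_div, le_div_iff₀ h2]
        exact h3
    _ = _ := by ring

/-- a ubiquitous system in `[0,1]` -/
structure Ubi (R : ℕ → Set ℝ) (N : ℕ → ℝ) (C1 C2 : ℝ) : Prop where
  ubi : ∀ η, 0 < η → ∃ k1, ∀ k, k1 ≤ k → ∀ a b, 0 ≤ a → b ≤ 1 → η ≤ b - a →
    ENNReal.ofReal ((b - a) / 2) ≤ volume {t | t ∈ Icc a b ∧ ∃ x ∈ R k, |t - x| ≤ C1 / N k}
  cnt : ∀ η, 0 < η → ∃ k1, ∀ k, k1 ≤ k → ∀ a b, 0 ≤ a → b ≤ 1 → η ≤ b - a →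
    (R k ∩ Icc a b).Finite ∧ ((R k ∩ Icc a b).ncard : ℝ) ≤ C2 * N k * (b - a)

theorem vol_near {S : Set ℝ} {p w : ℝ} (h : ∀ t ∈ S, |t - p| ≤ w) :
    volume S ≤ ENNReal.ofReal (2 * w) := by
  have : S ⊆ Metric.closedBall p w := fun t ht => by
    rw [Metric.mem_closedBall, Real.dist_eq]; exact h t ht
  exact (measure_mono this).trans (by rw [Real.volume_closedBall])

theorem sumN {N : ℕ → ℝ} {Λ : ℝ} (hN0 : ∀ k, 0 < N k) (hΛ : ∀ k, Λ * N k ≤ N (k + 1))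
    (h2 : 2 ≤ Λ) (k1 l : ℕ) : ∑ k ∈ Finset.Ico k1 l, N k ≤ 2 / Λ * N l := by
  induction l with
  | zero =>
    simp
    have := hN0 0
    positivity
  | succ l ih =>
    rcases le_or_gt k1 l with h | h
    · rw [Finset.sum_Ico_succ_top h]
      have h3 := hN0 l
      have h4 : 2 / Λ * N l + N l ≤ 2 / Λ * N (l + 1) := by
        have h5 : 2 / Λ ≤ 1 := by rw [div_le_one (by linarith)]; exact h2
        calc 2 / Λ * N l + N l ≤ 1 * N l + N l := by gcongr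
          _ = 2 / Λ * (Λ * N l) := by field_simp; ring
          _ ≤ 2 / Λ * N (l + 1) := by
              have := hΛ l
              gcongr
      linarith
    · rw [Finset.Ico_eq_empty (by omega), Finset.sum_empty]
      have := hN0 (l + 1)
      positivity

end Pool.Agent.Y907.HM
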