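import Pool.Agent.Y907.HM.Win

set_option autoImplicit false
open MeasureTheory Set Filter
open scoped ENNReal Topology

namespace Pool.Agent.Y907.HM

theorem vol_fin {P : Set ℝ} (hP : P.Finite) {w : ℝ} :
    volume {t | ∃ x ∈ P, |t - x| ≤ w} ≤ ENNReal.ofReal (P.ncard * (2 * w)) := by
  have h1 : {t | ∃ x ∈ P, |t - x| ≤ w} ⊆ ⋃ x ∈ hP.toFinset, Metric.closedBall x w := by
    rintro t ⟨x, hx, ht⟩
    simp only [Finite.mem_toFinset, mem_iUnion, Metric.mem_closedBall, Real.dist_eq]
    exact ⟨x, hx, ht⟩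
  calc volume {t | ∃ x ∈ P, |t - x| ≤ w} ≤ volume (⋃ x ∈ hP.toFinset, Metric.closedBall x w) :=
        measure_mono h1
    _ ≤ ∑ x ∈ hP.toFinset, volume (Metric.closedBall x w) := measure_biUnion_finset_le _ _
    _ = ∑ x ∈ hP.toFinset, ENNReal.ofReal (2 * w) := by
        refine Finset.sum_congr rfl fun x _ => ?_
        rw [Real.volume_closedBall]
    _ = ENNReal.ofReal (P.ncard * (2 * w)) := by
        rw [Finset.sum_const, nsmul_eq_mul, Set.ncard_eq_toFinset_card P hP,
          ENNReal.ofReal_mul (p := ((hP.toFinset.card : ℕ) : ℝ)) (by positivity),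
          ENNReal.ofReal_natCast]

theorem N_tendsto {N : ℕ → ℝ} {Λ : ℝ} (hN0 : ∀ k, 0 < N k) (hΛ : ∀ k, Λ * N k ≤ N (k + 1))
    (h2 : 2 ≤ Λ) : Tendsto N atTop atTop := by
  have h : ∀ k, (2:ℝ) ^ k * N 0 ≤ N k := by
    intro k
    induction k with
    | zero => simp
    | succ k ih =>
      calc (2:ℝ) ^ (k+1) * N 0 = 2 * (2 ^ k * N 0) := by ring
        _ ≤ Λ * N k := by
            have := hN0 0
            have := hN0 k
            gcongr
        _ ≤ _ := hΛ k
  refine tendsto_atTop_mono h ?_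
  exact (tendsto_pow_atTop_atTop_of_one_lt one_lt_two).atTop_mul_const (hN0 0)

open Classical in
theorem window {g : ℝ → ℝ} {σ Cg : ℝ} (hg : Gauge g σ Cg) {R : ℕ → Set ℝ} {N : ℕ → ℝ}
    {C1 C2 Λ : ℝ} (hC1 : 1 ≤ C1) (hC2 : 1 ≤ C2) (hU : Ubi R N C1 C2) (hN0 : ∀ k, 0 < N k)
    (hΛ : ∀ k, Λ * N k ≤ N (k + 1)) (hΛ' : 400 * C1 * C2 ≤ Λ) {r : ℕ → ℝ}
    (hr0 : ∀ k, 0 < r k) (hr1 : ∀ k, r k ≤ C1 / N k)
    (hdiv : ¬ Summable (fun k => N k * g (r k)))
    {ι : Type} [Countable ι] (I : ι → Set ℝ) (δ : ι → ℝ) (hδ0 : ∀ i, 0 < δ i)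
    (hI : ∀ i, ∀ s ∈ I i, ∀ t ∈ I i, |s - t| ≤ δ i)
    (hG : ∑' i, ENNReal.ofReal (g (δ i)) ≠ ⊤) {ε : ℝ} (hε : 0 < ε)
    {a b : ℝ} (ha : 0 ≤ a) (hab : a < b) (hb : b ≤ 1)
    (hsm : ∑' i, (if (I i ∩ Icc a b).Nonempty then ENNReal.ofReal (δ i) else 0) ≤
      ENNReal.ofReal ((b - a) / (16 * (2 + 4 * C1)))) (k0 : ℕ) :
    ∃ k, k0 ≤ k ∧ ∃ x ∈ R k, Icc (x - r k / 2) (x + r k / 2) ⊆ Icc a b ∧
      ∑' i, (if (I i ∩ Icc (x - r k / 2) (x + r k / 2)).Nonempty then
        ENNReal.ofReal (g (δ i)) else 0) ≤ ENNReal.ofReal (ε * g (r k)) := by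
  by_contra hcon
  push Not at hcon
  have hC10 : 0 < C1 := by linarith
  have hC20 : 0 < C2 := by linarith
  have hΛ2 : 2 ≤ Λ := by nlinarith
  have hLpos : 0 < b - a := by linarith
  set L := b - a with hL
  set G := (∑' i, ENNReal.ofReal (g (δ i))).toReal with hGdef
  have hG0 : 0 ≤ G := ENNReal.toReal_nonneg
  set T0 : ℝ := 16 * (1 + 2 * C1) * G / (ε * L) + 1 with hT0
  have hT0pos : 0 < T0 := by positivity
  have hCg := hg.Cg_pos
  have hg1 := hg.pos 1 one_pos
  have hNt := N_tendsto hN0 hΛ hΛ2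
  have hNinv : Tendsto (fun k => C1 / N k) atTop (𝓝 0) := hNt.const_div_atTop C1
  have hrt : Tendsto r atTop (𝓝 0) :=
    squeeze_zero (fun k => (hr0 k).le) hr1 hNinv
  have hrpt : Tendsto (fun k => C2 * (Cg / g 1) * (r k) ^ (1 - σ) * T0) atTop (𝓝 0) := by
    have h1 : Tendsto (fun k => (r k) ^ (1 - σ)) atTop (𝓝 0) := by
      have h2 : (0:ℝ) < 1 - σ := by have := hg.s1; linarith
      have h3 := hrt.rpow_const (Or.inr h2.le) (p := 1 - σ)
      rwa [Real.zero_rpow h2.ne'] at h3
    have h4 := (h1.const_mul (C2 * (Cg / g 1))).mul_const T0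
    simpa using h4
  obtain ⟨ku, hku⟩ := hU.ubi (L / 2) (by positivity)
  obtain ⟨kc, hkc⟩ := hU.cnt L hLpos
  have hev : ∀ᶠ k in atTop, k0 ≤ k ∧ ku ≤ k ∧ kc ≤ k ∧ C1 / N k ≤ L / 16 ∧ r k ≤ 1 ∧
      C2 * (Cg / g 1) * (r k) ^ (1 - σ) * T0 ≤ 1 / 32 := by
    filter_upwards [eventually_ge_atTop k0, eventually_ge_atTop ku, eventually_ge_atTop kc,
      hNinv.eventually_le_const (show (0:ℝ) < L / 16 by positivity),
      hrt.eventually_le_const one_pos,
      hrpt.eventually_le_const (show (0:ℝ) < 1 / 32 by norm_num)] with k h1 h2 h3 h4 h5 h6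
    exact ⟨h1, h2, h3, h4, h5, h6⟩
  obtain ⟨k1, hk1⟩ := eventually_atTop.1 hev
  -- the end of the window
  have ha0 : ∀ k, 0 ≤ N k * g (r k) := fun k => mul_nonneg (hN0 k).le (hg.pos _ (hr0 k)).le
  have hdiv' : Tendsto (fun n => ∑ i ∈ Finset.range n, N (i + k1) * g (r (i + k1))) atTop atTop := by
    rw [← not_summable_iff_tendsto_nat_atTop_of_nonneg (fun n => ha0 (n + k1))]
    intro h
    exact hdiv ((summable_nat_add_iff k1).1 h)
  have hex : ∃ n, T0 ≤ ∑ i ∈ Finset.range n, N (i + k1) * g (r (i + k1)) := by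
    obtain ⟨n, hn⟩ := (hdiv'.eventually_ge_atTop T0).exists
    exact ⟨n, hn⟩
  set n := Nat.find hex with hn
  have hn1 : T0 ≤ ∑ i ∈ Finset.range n, N (i + k1) * g (r (i + k1)) := Nat.find_spec hex
  have hshift : ∀ p, ∑ i ∈ Finset.range p, N (i + k1) * g (r (i + k1)) =
      ∑ k ∈ Finset.Ico k1 (k1 + p), N k * g (r k) := by
    intro p
    rw [Finset.sum_Ico_eq_sum_range]
    refine Finset.sum_congr (by simp) fun i _ => ?_
    rw [add_comm]
  have hlt : ∀ l, k1 ≤ l → l < k1 + n → ∑ k ∈ Finset.Ico k1 l, N k * g (r k) < T0 := by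
    intro l h1 h2
    have h3 : l - k1 < n := by omega
    have h4 := Nat.find_min hex h3
    rw [hshift, show k1 + (l - k1) = l by omega] at h4
    exact not_le.1 h4
  rw [hshift] at hn1
  -- the sets
  let Gl : ℕ → Set ℝ := fun l => {t | t ∈ Icc (a + L / 4) (b - L / 4) ∧ ∃ x ∈ R l, |t - x| ≤ C1 / N l}
  let D : ℕ → ℕ → Set ℝ := fun k l => {t | ∃ x ∈ R k ∩ Icc a b, |t - x| ≤ r k / 2 + 3 * (C1 / N l)}
  let V : ℕ → Set ℝ := fun l => {t | ∃ i, (I i ∩ Icc a b).Nonempty ∧ 1 / N l ≤ δ i ∧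
    ∃ s ∈ I i, |t - s| ≤ 2 * (C1 / N l)}
  let X : ℕ → Set ℝ := fun l => (⋃ k ∈ Finset.Ico k1 l, D k l) ∪ V l
  let H : ℕ → ι → Set ℝ := fun l i => {t | t ∈ Gl l \ X l ∧ δ i < 1 / N l ∧
    ∃ x ∈ R l, |t - x| ≤ C1 / N l ∧ (I i ∩ Icc (x - r l / 2) (x + r l / 2)).Nonempty}
  have hVol : ∀ l, k1 ≤ l → l < k1 + n → ENNReal.ofReal (L / 8) ≤ volume (Gl l \ X l) := by
    intro l hl1 hl2
    obtain ⟨hk0', hku', hkc', hNl, hrl, hTl⟩ := hk1 l hl1
    have hNlpos := hN0 l
    have h1 : ENNReal.ofReal (L / 4) ≤ volume (Gl l) := by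
      have := hku l hku' (a + L / 4) (b - L / 4) (by positivity) (by linarith) (by
        rw [hL]; linarith)
      refine le_trans (ENNReal.ofReal_le_ofReal ?_) this
      rw [hL]; linarith
    have h2 : volume (V l) ≤ ENNReal.ofReal (L / 16) := by
      have hsub : V l ⊆ ⋃ i, (if (I i ∩ Icc a b).Nonempty ∧ 1 / N l ≤ δ i then
          {t | ∃ s ∈ I i, |t - s| ≤ 2 * (C1 / N l)} else ∅) := by
        rintro t ⟨i, h1, h2, h3⟩
        refine mem_iUnion.2 ⟨i, ?_⟩
        rw [if_pos ⟨h1, h2⟩]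
        exact h3
      refine (measure_mono hsub).trans ((measure_iUnion_le _).trans ?_)
      have hterm : ∀ i, volume (if (I i ∩ Icc a b).Nonempty ∧ 1 / N l ≤ δ i then
          {t | ∃ s ∈ I i, |t - s| ≤ 2 * (C1 / N l)} else ∅) ≤
          ENNReal.ofReal (2 + 4 * C1) *
            (if (I i ∩ Icc a b).Nonempty then ENNReal.ofReal (δ i) else 0) := by
        intro i
        by_cases hc : (I i ∩ Icc a b).Nonempty ∧ 1 / N l ≤ δ i
        · rw [if_pos hc, if_pos hc.1]
          obtain ⟨s0, hs0⟩ := hc.1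
          have h4 : volume {t | ∃ s ∈ I i, |t - s| ≤ 2 * (C1 / N l)} ≤
              ENNReal.ofReal (2 * (δ i + 2 * (C1 / N l))) := by
            apply vol_near (p := s0)
            rintro t ⟨s, hs, hts⟩
            have h5 := hI i s hs s0 hs0.1
            have h6 : |t - s0| ≤ |t - s| + |s - s0| := abs_sub_le _ _ _
            linarith
          refine h4.trans ?_
          rw [← ENNReal.ofReal_mul (by positivity)]
          apply ENNReal.ofReal_le_ofReal
          have h7 : C1 / N l = C1 * (1 / N l) := by ring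
          have h8 : C1 * (1 / N l) ≤ C1 * δ i := by
            have := hc.2
            gcongr
          rw [h7]
          nlinarith
        · rw [if_neg hc]
          simp
      calc ∑' i, volume (if (I i ∩ Icc a b).Nonempty ∧ 1 / N l ≤ δ i then
          {t | ∃ s ∈ I i, |t - s| ≤ 2 * (C1 / N l)} else ∅)
          ≤ ∑' i, ENNReal.ofReal (2 + 4 * C1) *
            (if (I i ∩ Icc a b).Nonempty then ENNReal.ofReal (δ i) else 0) :=
            ENNReal.tsum_le_tsum hterm
        _ = ENNReal.ofReal (2 + 4 * C1) *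
            ∑' i, (if (I i ∩ Icc a b).Nonempty then ENNReal.ofReal (δ i) else 0) :=
            ENNReal.tsum_mul_left
        _ ≤ ENNReal.ofReal (2 + 4 * C1) * ENNReal.ofReal (L / (16 * (2 + 4 * C1))) := by
            gcongr
        _ = ENNReal.ofReal (L / 16) := by
            rw [← ENNReal.ofReal_mul (by positivity)]
            congr 1
            field_simp
    have h3 : volume (⋃ k ∈ Finset.Ico k1 l, D k l) ≤ ENNReal.ofReal (L / 16) := by
      have hD : ∀ k ∈ Finset.Ico k1 l, volume (D k l) ≤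
          ENNReal.ofReal (C2 * N k * L * (r k + 6 * (C1 / N l))) := by
        intro k hk
        rw [Finset.mem_Ico] at hk
        obtain ⟨-, -, hkc'', -, -, -⟩ := hk1 k hk.1
        obtain ⟨hfin, hcard⟩ := hkc k hkc'' a b ha hb le_rfl
        have hrk := hr0 k
        refine (vol_fin hfin (w := r k / 2 + 3 * (C1 / N l))).trans ?_
        apply ENNReal.ofReal_le_ofReal
        calc ((R k ∩ Icc a b).ncard : ℝ) * (2 * (r k / 2 + 3 * (C1 / N l)))
            = ((R k ∩ Icc a b).ncard : ℝ) * (r k + 6 * (C1 / N l)) := by ring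
          _ ≤ C2 * N k * L * (r k + 6 * (C1 / N l)) := by gcongr
      refine (measure_biUnion_finset_le _ _).trans ((Finset.sum_le_sum hD).trans ?_)
      rw [← ENNReal.ofReal_sum_of_nonneg (fun k _ => by
        have := hN0 k; have := hr0 k; positivity)]
      apply ENNReal.ofReal_le_ofReal
      have h4 : ∑ k ∈ Finset.Ico k1 l, C2 * N k * L * (r k + 6 * (C1 / N l)) =
          L * (∑ k ∈ Finset.Ico k1 l, C2 * (N k * r k)) +
          6 * C1 * C2 * L * ((∑ k ∈ Finset.Ico k1 l, N k) / N l) := by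
        rw [Finset.mul_sum, Finset.sum_div, Finset.mul_sum, ← Finset.sum_add_distrib]
        refine Finset.sum_congr rfl fun k _ => ?_
        ring
      rw [h4]
      have h5 : ∑ k ∈ Finset.Ico k1 l, C2 * (N k * r k) ≤ 1 / 32 := by
        have h6 : ∀ k ∈ Finset.Ico k1 l, C2 * (N k * r k) ≤ (1 / 32 / T0) * (N k * g (r k)) := by
          intro k hk
          rw [Finset.mem_Ico] at hk
          obtain ⟨-, -, -, -, hrk1, hTk⟩ := hk1 k hk.1
          have h7 := hg.one (hr0 k) hrk1
          have hNk := hN0 k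
          have hgk := hg.pos _ (hr0 k)
          have h8 : C2 * (r k ^ (1 - σ) * (Cg / g 1)) ≤ 1 / 32 / T0 := by
            rw [le_div_iff₀ hT0pos]
            calc C2 * (r k ^ (1 - σ) * (Cg / g 1)) * T0 = C2 * (Cg / g 1) * (r k) ^ (1 - σ) * T0 := by ring
              _ ≤ 1 / 32 := hTk
          calc C2 * (N k * r k) ≤ C2 * (N k * (r k ^ (1 - σ) * (Cg / g 1) * g (r k))) := by gcongr
            _ = C2 * (r k ^ (1 - σ) * (Cg / g 1)) * (N k * g (r k)) := by ring
            _ ≤ (1 / 32 / T0) * (N k * g (r k)) := by gcongr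
        calc ∑ k ∈ Finset.Ico k1 l, C2 * (N k * r k)
            ≤ ∑ k ∈ Finset.Ico k1 l, (1 / 32 / T0) * (N k * g (r k)) := Finset.sum_le_sum h6
          _ = (1 / 32 / T0) * ∑ k ∈ Finset.Ico k1 l, N k * g (r k) := by rw [Finset.mul_sum]
          _ ≤ (1 / 32 / T0) * T0 := by
              have := (hlt l hl1 hl2).le
              gcongr
          _ = 1 / 32 := by field_simp
      have h6 : (∑ k ∈ Finset.Ico k1 l, N k) / N l ≤ 2 / Λ := by
        rw [div_le_iff₀ hNlpos]
        exact sumN hN0 hΛ hΛ2 k1 l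
      have h7 : 6 * C1 * C2 * L * ((∑ k ∈ Finset.Ico k1 l, N k) / N l) ≤ L / 32 := by
        have hΛpos : 0 < Λ := by linarith
        calc 6 * C1 * C2 * L * ((∑ k ∈ Finset.Ico k1 l, N k) / N l)
            ≤ 6 * C1 * C2 * L * (2 / Λ) := by gcongr
          _ = L * (12 * (C1 * C2) / Λ) := by ring
          _ ≤ L * (1 / 32) := by
              refine mul_le_mul_of_nonneg_left ?_ hLpos.le
              rw [div_le_iff₀ hΛpos]
              have : 0 < C1 * C2 := by positivity
              nlinarith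
          _ = L / 32 := by ring
      nlinarith
    have h4 : volume (X l) ≤ ENNReal.ofReal (L / 8) := by
      refine (measure_union_le _ _).trans ((add_le_add h3 h2).trans ?_)
      rw [← ENNReal.ofReal_add (by positivity) (by positivity)]
      apply ENNReal.ofReal_le_ofReal
      linarith
    calc ENNReal.ofReal (L / 8) = ENNReal.ofReal (L / 4) - ENNReal.ofReal (L / 8) := by
          rw [← ENNReal.ofReal_sub _ (by positivity)]
          congr 1
          ring
      _ ≤ volume (Gl l) - volume (X l) := tsub_le_tsub h1 h4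
      _ ≤ volume (Gl l \ X l) := le_measure_sdiff
  have hone : ∀ i k l, k1 ≤ k → k < l → (H k i).Nonempty → (H l i).Nonempty → False := by
    rintro i k l hk1' hkl ⟨t', ⟨⟨ht'G, ht'X⟩, hδk, x', hx'R, hx't, s', hs'I, hs'x⟩⟩
      ⟨t, ⟨⟨htG, htX⟩, hδl, x, hxR, hxt, s, hsI, hsx⟩⟩
    apply htX
    left
    simp only [mem_iUnion]
    obtain ⟨-, -, -, hNk, -, -⟩ := hk1 k hk1'
    refine ⟨k, Finset.mem_Ico.2 ⟨hk1', hkl⟩, x', ⟨hx'R, ?_⟩, ?_⟩
    · have h1 := ht'G.1
      have h2 := abs_le.1 hx't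
      constructor <;> linarith [h1.1, h1.2, h2.1, h2.2]
    · have h1 : |s - s'| ≤ δ i := hI i s hsI s' hs'I
      have h2 : |x - s| ≤ r l / 2 := by
        rw [abs_le]; constructor <;> linarith [hsx.1, hsx.2]
      have h3 : |s' - x'| ≤ r k / 2 := by
        rw [abs_le]; constructor <;> linarith [hs'x.1, hs'x.2]
      have h4 : |t - x'| ≤ |t - x| + |x - s| + |s - s'| + |s' - x'| := by
        have e1 : t - x' = (t - x) + (x - s) + (s - s') + (s' - x') := by ring
        rw [e1]
        exact (abs_add_le _ _).trans (add_le_add_left ((abs_add_le _ _).trans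
          (add_le_add_left (abs_add_le _ _) _)) _)
      have h5 := hr1 l
      have h6 : 1 / N l ≤ C1 / N l := by
        have := hN0 l
        gcongr
      have h7 : 0 < C1 / N l := by
        have := hN0 l
        positivity
      linarith
  -- weights
  let w : ℕ → ι → ℝ≥0∞ := fun l i => if (H l i).Nonempty then ENNReal.ofReal (g (δ i)) else 0
  have hmain : ∀ l, k1 ≤ l → l < k1 + n →
      ENNReal.ofReal (ε * g (r l)) * ENNReal.ofReal (L / 8) ≤
        (∑' i, w l i) * ENNReal.ofReal (2 * ((1 + 2 * C1) / N l)) := by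
    intro l hl1 hl2
    obtain ⟨hk0', -, -, hNl, hrl, -⟩ := hk1 l hl1
    have hNlpos := hN0 l
    have hp : ∀ i, ∃ p : ℝ, (H l i).Nonempty → p ∈ I i := by
      intro i
      by_cases h : (H l i).Nonempty
      · obtain ⟨t, ⟨_, _, x, _, _, s, hs, _⟩⟩ := h
        exact ⟨s, fun _ => hs⟩
      · exact ⟨0, fun h' => (h h').elim⟩
    choose p hp using hp
    have hHb : ∀ i, ∀ t ∈ H l i, |t - p i| ≤ (1 + 2 * C1) / N l := by
      intro i t ht
      have hpi := hp i ⟨t, ht⟩
      obtain ⟨-, hδl, x, hxR, hxt, s, hsI, hsx⟩ := ht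
      have h1 : |s - p i| ≤ δ i := hI i s hsI _ hpi
      have h2 : |x - s| ≤ r l / 2 := by
        rw [abs_le]; constructor <;> linarith [hsx.1, hsx.2]
      have h4 : |t - p i| ≤ |t - x| + |x - s| + |s - p i| := by
        have e1 : t - p i = (t - x) + (x - s) + (s - p i) := by ring
        rw [e1]
        exact (abs_add_le _ _).trans (add_le_add_left (abs_add_le _ _) _)
      have h5 := hr1 l
      have h6 : (1 + 2 * C1) / N l = 1 / N l + 2 * (C1 / N l) := by ring
      have h7 : 0 < C1 / N l := by positivity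
      linarith
    let Φ : ℝ → ℝ≥0∞ := fun t => ∑' i,
      (Metric.closedBall (p i) ((1 + 2 * C1) / N l)).indicator (fun _ => w l i) t
    have hΦm : Measurable Φ := by
      refine Measurable.tsum fun i => ?_
      exact measurable_const.indicator Metric.isClosed_closedBall.measurableSet
    have hΦi : ∫⁻ t, Φ t = (∑' i, w l i) * ENNReal.ofReal (2 * ((1 + 2 * C1) / N l)) := by
      rw [lintegral_tsum (fun i =>
        (measurable_const.indicator Metric.isClosed_closedBall.measurableSet).aemeasurable)]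
      rw [← ENNReal.tsum_mul_right]
      refine tsum_congr fun i => ?_
      rw [lintegral_indicator_const Metric.isClosed_closedBall.measurableSet,
        Real.volume_closedBall]
    have hΦl : Gl l \ X l ⊆ {t | ENNReal.ofReal (ε * g (r l)) ≤ Φ t} := by
      intro t ht
      obtain ⟨⟨htI, x, hxR, hxt⟩, htX⟩ := ht
      have hxt' := abs_le.1 hxt
      have hr1l := hr1 l
      have hr0l := hr0 l
      have hsub : Icc (x - r l / 2) (x + r l / 2) ⊆ Icc a b := by
        intro u hu
        constructor <;> linarith [hu.1, hu.2, htI.1, htI.2, hxt'.1, hxt'.2]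
      have h1 := hcon l hk0' x hxR hsub
      refine h1.le.trans ?_
      refine ENNReal.tsum_le_tsum fun i => ?_
      by_cases hc : (I i ∩ Icc (x - r l / 2) (x + r l / 2)).Nonempty
      · rw [if_pos hc]
        have htH : t ∈ H l i := by
          refine ⟨⟨⟨htI, x, hxR, hxt⟩, htX⟩, ?_, x, hxR, hxt, hc⟩
          by_contra hδ
          push Not at hδ
          apply htX
          right
          obtain ⟨s, hsI, hsx⟩ := hc
          refine ⟨i, ⟨s, hsI, hsub hsx⟩, hδ, s, hsI, ?_⟩
          have h2 : |x - s| ≤ r l / 2 := by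
            rw [abs_le]; constructor <;> linarith [hsx.1, hsx.2]
          have h3 : |t - s| ≤ |t - x| + |x - s| := abs_sub_le _ _ _
          linarith
        have htb : t ∈ Metric.closedBall (p i) ((1 + 2 * C1) / N l) := by
          rw [Metric.mem_closedBall, Real.dist_eq]
          exact hHb i t htH
        rw [indicator_of_mem htb]
        show _ ≤ w l i
        have : (H l i).Nonempty := ⟨t, htH⟩
        simp only [w, if_pos this, le_refl]
      · rw [if_neg hc]
        exact zero_le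
    have h2 := mul_meas_ge_le_lintegral (μ := volume) hΦm (ENNReal.ofReal (ε * g (r l)))
    rw [hΦi] at h2
    refine le_trans ?_ h2
    gcongr
    exact (hVol l hl1 hl2).trans (measure_mono hΦl)
  have hwsum : ∀ i, ∑ l ∈ Finset.Ico k1 (k1 + n), w l i ≤ ENNReal.ofReal (g (δ i)) := by
    intro i
    by_cases hc : ∃ l ∈ Finset.Ico k1 (k1 + n), (H l i).Nonempty
    · obtain ⟨l, hl, hH⟩ := hc
      rw [Finset.sum_eq_single_of_mem l hl]
      · simp only [w, if_pos hH, le_refl]
      · intro l' hl' hne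
        simp only [w]
        rw [if_neg]
        intro hH'
        rw [Finset.mem_Ico] at hl hl'
        rcases lt_or_gt_of_ne hne with h | h
        · exact hone i l' l hl'.1 h hH' hH
        · exact hone i l l' hl.1 h hH hH'
    · push Not at hc
      rw [Finset.sum_eq_zero]
      · exact zero_le
      · intro l hl
        simp only [w]
        rw [if_neg]
        rw [hc l hl]
        exact Set.not_nonempty_empty
  have hfin : ∑ l ∈ Finset.Ico k1 (k1 + n), ENNReal.ofReal (N l) *
      (ENNReal.ofReal (ε * g (r l)) * ENNReal.ofReal (L / 8)) ≤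
      ENNReal.ofReal (2 * (1 + 2 * C1)) * ∑' i, ENNReal.ofReal (g (δ i)) := by
    calc ∑ l ∈ Finset.Ico k1 (k1 + n), ENNReal.ofReal (N l) *
          (ENNReal.ofReal (ε * g (r l)) * ENNReal.ofReal (L / 8))
        ≤ ∑ l ∈ Finset.Ico k1 (k1 + n), ENNReal.ofReal (2 * (1 + 2 * C1)) * ∑' i, w l i := by
          refine Finset.sum_le_sum fun l hl => ?_
          rw [Finset.mem_Ico] at hl
          have h1 := hmain l hl.1 hl.2
          have hNl := hN0 l
          calc ENNReal.ofReal (N l) * (ENNReal.ofReal (ε * g (r l)) * ENNReal.ofReal (L / 8))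
              ≤ ENNReal.ofReal (N l) *
                ((∑' i, w l i) * ENNReal.ofReal (2 * ((1 + 2 * C1) / N l))) := by gcongr
            _ = (ENNReal.ofReal (N l) * ENNReal.ofReal (2 * ((1 + 2 * C1) / N l))) *
                ∑' i, w l i := by ring
            _ = ENNReal.ofReal (2 * (1 + 2 * C1)) * ∑' i, w l i := by
                rw [← ENNReal.ofReal_mul hNl.le]
                congr 2
                field_simp
      _ = ENNReal.ofReal (2 * (1 + 2 * C1)) * ∑' i, ∑ l ∈ Finset.Ico k1 (k1 + n), w l i := by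
          rw [← Finset.mul_sum, Summable.tsum_finsetSum (fun _ _ => ENNReal.summable)]
      _ ≤ _ := by
          gcongr with i
          exact hwsum i
  have hfin2 : ∑ l ∈ Finset.Ico k1 (k1 + n), ENNReal.ofReal (N l) *
      (ENNReal.ofReal (ε * g (r l)) * ENNReal.ofReal (L / 8)) =
      ENNReal.ofReal (ε * L / 8 * ∑ l ∈ Finset.Ico k1 (k1 + n), N l * g (r l)) := by
    rw [Finset.mul_sum, ENNReal.ofReal_sum_of_nonneg (fun l _ => by
      have := ha0 l; positivity)]
    refine Finset.sum_congr rfl fun l _ => ?_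
    have h1 := hN0 l
    have h2 := hg.pos _ (hr0 l)
    rw [← ENNReal.ofReal_mul (by positivity), ← ENNReal.ofReal_mul h1.le]
    congr 1
    ring
  rw [hfin2, ← ENNReal.ofReal_toReal hG, ← hGdef, ← ENNReal.ofReal_mul (by positivity)] at hfin
  have hfin3 := (ENNReal.ofReal_le_ofReal_iff (by positivity)).1 hfin
  have h9 : ε * L / 8 * T0 ≤ ε * L / 8 * ∑ l ∈ Finset.Ico k1 (k1 + n), N l * g (r l) := by
    gcongr
  have h10 : ε * L / 8 * T0 = 2 * (1 + 2 * C1) * G + ε * L / 8 := by
    rw [hT0]; field_simp; ring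
  have h11 : 0 < ε * L / 8 := by positivity
  linarith

end Pool.Agent.Y907.HM
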